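import Pool.Agent.L7h82.RL.Stm

/-!
Primitive characters of an ideal.
-/

set_option autoImplicit false

namespace Pool.Agent.L7h82.RL

open NumberField IsDedekindDomain
open Pool.Agent.K4H55.BI Pool.Agent.K4H55.CX
open scoped ComplexConjugate

section
variable {K : Type} [Field K] [NumberField K]

lemma PK.map_pow {𝔣 : Ideal (𝓞 K)} {χ : 𝓞 K → ℂ} (h : PK 𝔣 χ) (x : 𝓞 K) (j : ℕ) :
    χ (x ^ j) = χ x ^ j := by
  induction j with
  | zero => rw [pow_zero, pow_zero, h.one]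
  | succ j ih => rw [pow_succ, pow_succ, h.mul, ih]

/-- the `x` prime to `𝔣` -/
lemma PK.ne_iff {𝔣 : Ideal (𝓞 K)} {χ : 𝓞 K → ℂ} (h : PK 𝔣 χ) (x : 𝓞 K) :
    χ x ≠ 0 ↔ Ideal.span {x} ⊔ 𝔣 = ⊤ := by
  rw [Ne, h.zero]
  constructor
  · intro h1
    by_contra h2
    obtain ⟨m, hm, hle⟩ := Ideal.exists_le_maximal _ h2
    have hm0 : m ≠ ⊥ := by
      rintro rfl
      exact h.f0 (le_bot_iff.1 (le_sup_right.trans hle))
    exact h1 ⟨⟨m, hm.isPrime, hm0⟩, le_sup_right.trans hle,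
      hle (le_sup_left (α := Ideal (𝓞 K)) (Ideal.mem_span_singleton_self x))⟩
  · rintro h1 ⟨v, h2, h3⟩
    have h4 : Ideal.span {x} ⊔ 𝔣 ≤ v.asIdeal :=
      sup_le ((Ideal.span_singleton_le_iff_mem _).2 h3) h2
    rw [h1] at h4
    exact v.isPrime.ne_top (top_le_iff.1 h4)

/-- the values are roots of unity -/
lemma PK.root {𝔣 : Ideal (𝓞 K)} {χ : 𝓞 K → ℂ} (h : PK 𝔣 χ) : ∃ k : ℕ, k ≠ 0 ∧
    ∀ x, χ x ≠ 0 → χ x ^ k = 1 := by
  have hfin : Finite (𝓞 K ⧸ 𝔣) := Ideal.finiteQuotientOfFreeOfNeBot 𝔣 h.f0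
  have hfinu : Finite (𝓞 K ⧸ 𝔣)ˣ := inferInstance
  refine ⟨Nat.card (𝓞 K ⧸ 𝔣)ˣ, Nat.card_pos.ne', fun x hx => ?_⟩
  rw [h.ne_iff] at hx
  have h1 : (1 : 𝓞 K) ∈ Ideal.span {x} ⊔ 𝔣 := by rw [hx]; trivial
  obtain ⟨a, ha, b, hb, hab⟩ := Submodule.mem_sup.1 h1
  obtain ⟨y, rfl⟩ := Ideal.mem_span_singleton'.1 ha
  have h2 : Ideal.Quotient.mk 𝔣 y * Ideal.Quotient.mk 𝔣 x = 1 := by
    rw [← map_mul, ← map_one (Ideal.Quotient.mk 𝔣), Ideal.Quotient.mk_eq_mk_iff_sub_mem, ← hab]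
    have : y * x - (y * x + b) = -b := by ring
    rw [this]
    exact 𝔣.neg_mem hb
  let u : (𝓞 K ⧸ 𝔣)ˣ := ⟨Ideal.Quotient.mk 𝔣 x, Ideal.Quotient.mk 𝔣 y, by rw [mul_comm]; exact h2, h2⟩
  have h3 : u ^ Nat.card (𝓞 K ⧸ 𝔣)ˣ = 1 := pow_card_eq_one'
  have h4 : Ideal.Quotient.mk 𝔣 (x ^ Nat.card (𝓞 K ⧸ 𝔣)ˣ) = Ideal.Quotient.mk 𝔣 1 := by
    have h5 := congrArg Units.val h3
    rw [Units.val_pow_eq_pow_val, Units.val_one] at h5
    rw [RingHom.map_pow, map_one]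
    exact h5
  rw [Ideal.Quotient.mk_eq_mk_iff_sub_mem] at h4
  have h5 := h.prd _ _ h4
  rw [h.map_pow, h.one] at h5
  exact h5

lemma PK.nrm {𝔣 : Ideal (𝓞 K)} {χ : 𝓞 K → ℂ} (h : PK 𝔣 χ) {x : 𝓞 K} (hx : χ x ≠ 0) :
    χ x * conj (χ x) = 1 := by
  obtain ⟨k, hk, h1⟩ := h.root
  have h2 : ‖χ x‖ = 1 := Complex.norm_eq_one_of_pow_eq_one (h1 x hx) hk
  rw [Complex.mul_conj, Complex.normSq_eq_norm_sq, h2]
  norm_num

lemma PK.norm_le {𝔣 : Ideal (𝓞 K)} {χ : 𝓞 K → ℂ} (h : PK 𝔣 χ) (x : 𝓞 K) : ‖χ x‖ ≤ 1 := by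
  by_cases h0 : χ x = 0
  · rw [h0, norm_zero]
    exact zero_le_one
  · obtain ⟨k, hk, h1⟩ := h.root
    exact (Complex.norm_eq_one_of_pow_eq_one (h1 x h0) hk).le

end

theorem s_PCK : S_PCK := by
  intro K _ _ _ 𝔣 χ h
  have hs : Ideal.span {gn 𝔣} = 𝔣 := Ideal.span_singleton_generator 𝔣
  have h0 : gn 𝔣 ≠ 0 := by
    intro h1
    apply h.f0
    rw [← hs, h1, Ideal.span_singleton_eq_bot]
  have hco : ∀ x, IsCoprime x (gn 𝔣) ↔ χ x ≠ 0 := by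
    intro x
    rw [h.ne_iff]
    nth_rewrite 2 [← hs]
    rw [← Ideal.isCoprime_iff_sup_eq, Ideal.isCoprime_span_singleton_iff]
  refine ⟨h0, fun x y hxy => h.prd x y ?_, h.mul, h.one, fun x hx => ?_, fun x hx => ?_,
    fun p m' hp hm => ?_⟩
  · rw [← hs]
    exact Ideal.mem_span_singleton.2 hxy
  · by_contra h1
    exact hx ((hco x).2 h1)
  · exact h.nrm ((hco x).1 hx)
  · have hm0 : m' ≠ 0 := by
      rintro rfl
      exact h0 (by rw [hm, mul_zero])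
    have h1 : 𝔣 < Ideal.span {m'} := by
      rw [← hs]
      refine lt_of_le_of_ne ?_ ?_
      · rw [Ideal.span_singleton_le_span_singleton]
        exact ⟨p, by rw [hm]; ring⟩
      · intro h2
        rw [Ideal.span_singleton_eq_span_singleton] at h2
        obtain ⟨u, hu⟩ := h2
        rw [hm] at hu
        have h3 : p * (u : 𝓞 K) = 1 := by
          apply mul_left_cancel₀ hm0
          linear_combination hu
        exact hp.not_unit (IsUnit.of_mul_eq_one _ h3)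
    obtain ⟨x, h2, h3, h4⟩ := h.prim _ h1
    exact ⟨x, Ideal.mem_span_singleton.1 h2, (hco x).2 h3, h4⟩

end Pool.Agent.L7h82.RL
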