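import Pool.Agent.L7h82.RL.Gm
import Pool.Agent.L7h82.RL.Pck
import Pool.Agent.L7h50.RL.Pow
import Pool.Agent.L7h50.RL.Cyc
import Pool.Agent.L7h50.RL.Rat
import Pool.Agent.L7h50.RL.Gs
import Pool.Agent.L7h53.RL.Tw
import Pool.Agent.L7h53.RL.Val
import Pool.Agent.L7h53.RL.Real
import Pool.Agent.L7h60.RL.Ls
import Pool.Agent.L7h65.RL2.Per0

/-!
Assembly: the product of the central values of the twists.
-/

set_option autoImplicit false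
set_option linter.unusedSectionVars false

namespace Pool.Agent.L7h82.RL

open NumberField IsDedekindDomain Filter Topology
open Pool.Agent.K4H55.BI (rs Prd ee kap fv MF IQ BF ordK gen nu Fser_eq)
open Pool.Agent.K4H55.BK (Vals)
open Pool.Agent.K4H55.CX (br efx facF ord)
open Pool.Agent.W189.NF (aV eV)
open scoped ComplexConjugate

variable {K : Type} [Field K] [NumberField K] [hP : IsPrincipalIdealRing (𝓞 K)] {σ : K →+* ℂ}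
  {δ : K} {n : 𝓞 K} {c : Ideal (𝓞 K) → ℂ}

/-- the coefficients as a function of the elements -/
abbrev cc (c : Ideal (𝓞 K) → ℂ) : 𝓞 K → ℂ := fun x => c (Ideal.span {x})

lemma gn_span (𝔣 : Ideal (𝓞 K)) : Ideal.span {gn 𝔣} = 𝔣 := Ideal.span_singleton_generator 𝔣

lemma gn_coprime {𝔣 : Ideal (𝓞 K)} (h0 : 𝔣 ≠ ⊥)
    (h : ∀ v : HeightOneSpectrum (𝓞 K), 𝔣 ≤ v.asIdeal → n ∉ v.asIdeal) : IsCoprime (gn 𝔣) n := by
  rw [← Ideal.isCoprime_span_singleton_iff, gn_span, Ideal.isCoprime_iff_sup_eq]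
  by_contra h2
  obtain ⟨m, hm, hle⟩ := Ideal.exists_le_maximal _ h2
  have hm0 : m ≠ ⊥ := by
    rintro rfl
    exact h0 (le_bot_iff.1 (le_sup_left.trans hle))
  exact h ⟨m, hm.isPrime, hm0⟩ (le_sup_left.trans hle)
    (hle (le_sup_right (α := Ideal (𝓞 K)) (Ideal.mem_span_singleton_self n)))

lemma vals_mem (h : IQ K σ δ) (hf : BF σ δ n c) {x m : 𝓞 K} (hm : m ≠ 0) (hmn : IsCoprime m n) :
    fv (ordK h) (cc c) ((ordK h).ι x / (ordK h).ι m) ∈ Vals σ δ n c := by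
  obtain ⟨C, w, κ, κW, hN⟩ := hf.newf h
  have hMG := hN.mg
  refine ⟨x, m, hm, hmn, ?_⟩
  rw [Fser_eq h]
  exact hMG.tendsto hm hmn

open Classical in
/-- the values at the cusps as multiples of `ω` -/
noncomputable def Zf (h : IQ K σ δ) (c : Ideal (𝓞 K) → ℂ) (ω : ℂ) (𝔣 : Ideal (𝓞 K)) (x : 𝓞 K) : ℤ :=
  if h1 : ∃ j : ℤ, fv (ordK h) (cc c) ((ordK h).ι x / (ordK h).ι (gn 𝔣)) = j * ω then h1.choose else 0

/-- the value of the twist -/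
noncomputable def sZ (h : IQ K σ δ) (c : Ideal (𝓞 K) → ℂ) (ω : ℂ) (𝔣 : Ideal (𝓞 K)) (χ : 𝓞 K → ℂ) : ℂ :=
  ∑ x ∈ rs (ordK h) (gn 𝔣), conj (χ x) * (Zf h c ω 𝔣 x : ℂ)

lemma sm_eq (h : IQ K σ δ) (hf : BF σ δ n c) {ω : ℂ} (hω : ∀ l ∈ Vals σ δ n c, ∃ j : ℤ, l = j * ω)
    {𝔣 : Ideal (𝓞 K)} {χ : 𝓞 K → ℂ} (hχ : PK 𝔣 χ)
    (hn : ∀ v : HeightOneSpectrum (𝓞 K), 𝔣 ≤ v.asIdeal → n ∉ v.asIdeal) :
    sm (ordK h) (cc c) (gn 𝔣) χ = ω * sZ h c ω 𝔣 χ := by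
  have hm := (s_PCK K 𝔣 χ hχ).1
  have hco := gn_coprime hχ.f0 hn
  unfold sm sZ
  rw [Finset.mul_sum]
  refine Finset.sum_congr rfl fun x _ => ?_
  have h1 : ∃ j : ℤ, fv (ordK h) (cc c) ((ordK h).ι x / (ordK h).ι (gn 𝔣)) = j * ω :=
    hω _ (vals_mem h hf hm hco)
  have h2 : fv (ordK h) (cc c) ((ordK h).ι x / (ordK h).ι (gn 𝔣)) = (Zf h c ω 𝔣 x : ℂ) * ω := by
    unfold Zf
    rw [dif_pos h1]
    exact h1.choose_spec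
  rw [h2]
  ring

/-- the value of one twist -/
theorem val_one (h : IQ K σ δ) (hf : BF σ δ n c) {ω : ℂ} (hω : ∀ l ∈ Vals σ δ n c, ∃ j : ℤ, l = j * ω)
    {𝔣 : Ideal (𝓞 K)} {χ : 𝓞 K → ℂ} (hχ : PK 𝔣 χ)
    (hn : ∀ v : HeightOneSpectrum (𝓞 K), 𝔣 ≤ v.asIdeal → n ∉ v.asIdeal) :
    ∃ G : ℂ → ℂ, Differentiable ℂ G ∧ (∀ s : ℂ, 2 < s.re → HasProd (efx n c χ s) (G s)) ∧
      G 1 = (kap (ordK h) * ω / nu (𝓞 K)) * (sZ h c ω 𝔣 χ / gm (ordK h) (gn 𝔣) (br χ)) := by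
  obtain ⟨G, h1, h2, h3⟩ := L7h53.RL.s_VAL s_PCK s_GM L7h53.RL.s_TW K σ δ n c h hf 𝔣 χ hχ hn
  refine ⟨G, h1, h2, ?_⟩
  have h4 : sm (ordK h) (fun x => c (Ideal.span {x})) (gn 𝔣) χ = ω * sZ h c ω 𝔣 χ := sm_eq h hf hω hχ hn
  rw [h3, h4]
  ring

section ext

variable {F : Type} [Field F] [NumberField F] [Algebra K F] [IsGalois K F]

open Classical in
/-- **the central value over an abelian extension** -/
theorem val_F (h : IQ K σ δ) (hf : BF σ δ n c) {a b : 𝓞 K} (hΔ : 4 * a ^ 3 + 27 * b ^ 2 ≠ 0)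
    (hloc : ∀ v : HeightOneSpectrum (𝓞 K), c v.asIdeal = (aV (L7h15.BK.cv (a : K) (b : K)) v : ℂ) ∧
      (eV (L7h15.BK.cv (a : K) (b : K)) v : ℂ) = if n ∈ v.asIdeal then 0 else (Ideal.absNorm v.asIdeal : ℂ))
    {ω : ℂ} (hω : ∀ l ∈ Vals σ δ n c, ∃ j : ℤ, l = j * ω)
    (hab : ∀ s t : F ≃ₐ[K] F, s * t = t * s)
    {𝔣 : ((F ≃ₐ[K] F) →* ℂˣ) → Ideal (𝓞 K)} {χ : ((F ≃ₐ[K] F) →* ℂˣ) → 𝓞 K → ℂ}
    (hR : ∀ ψ, RC ψ (𝔣 ψ) (χ ψ))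
    (hn : ∀ ψ, ∀ v : HeightOneSpectrum (𝓞 K), 𝔣 ψ ≤ v.asIdeal → n ∉ v.asIdeal) :
    (∃ x, CentralValue (L7h15.BK.cv (algebraMap K F (a : K)) (algebraMap K F (b : K))) x) ∧
    ∃ q : ℚ, ∀ x, CentralValue (L7h15.BK.cv (algebraMap K F (a : K)) (algebraMap K F (b : K))) x →
      x = (q : ℂ) * (kap (ordK h) * ω / nu (𝓞 K)) ^ Module.finrank K F /
        ((√(∏ᶠ ψ, (Ideal.absNorm (𝔣 ψ) : ℝ)) : ℝ) : ℂ) := by
  have hfinG : Finite ((F ≃ₐ[K] F) →* ℂˣ) := by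
    refine Nat.finite_of_card_ne_zero ?_
    let _ : CommGroup (F ≃ₐ[K] F) := { (inferInstance : Group (F ≃ₐ[K] F)) with mul_comm := hab }
    have e := CommGroup.card_monoidHom_of_hasEnoughRootsOfUnity (F ≃ₐ[K] F) ℂ
    have e2 : 0 < Nat.card (F ≃ₐ[K] F) := Nat.card_pos
    intro h0
    have e3 : Nat.card ((F ≃ₐ[K] F) →* ℂˣ) = Nat.card (F ≃ₐ[K] F) := e
    omega
  have hcardG : Nat.card ((F ≃ₐ[K] F) →* ℂˣ) = Module.finrank K F := by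
    let _ : CommGroup (F ≃ₐ[K] F) := { (inferInstance : Group (F ≃ₐ[K] F)) with mul_comm := hab }
    have e := CommGroup.card_monoidHom_of_hasEnoughRootsOfUnity (F ≃ₐ[K] F) ℂ
    have e3 : Nat.card ((F ≃ₐ[K] F) →* ℂˣ) = Nat.card (F ≃ₐ[K] F) := e
    rw [e3]
    exact IsGalois.card_aut_eq_finrank K F
  have : Fintype ((F ≃ₐ[K] F) →* ℂˣ) := Fintype.ofFinite _
  obtain ⟨hmul, -, -⟩ := L7h60.RL.s_CLS K F hab 𝔣 χ hR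
  choose G g1 g2 g3 using fun ψ => val_one h hf hω (hR ψ).ch (hn ψ)
  obtain ⟨r, hr0, hr⟩ := L7h60.RL.s_LS s_PCK L7h50.RL.s_CYC L7h50.RL.s_POW L7h50.RL.s_RAT L7h60.RL.s_CLS K F σ δ n a b c h hΔ hloc hab 𝔣 χ hR G g1 g2
  obtain ⟨e, he, hgs⟩ := L7h50.RL.s_GS s_PCK s_GM L7h50.RL.s_POW K σ δ h ((F ≃ₐ[K] F) →* ℂˣ) 𝔣 χ (fun ψ => (hR ψ).ch) hmul
  obtain ⟨k, hk⟩ := (L7h50.RL.s_RAT L7h50.RL.s_CYC L7h50.RL.s_POW K ((F ≃ₐ[K] F) →* ℂˣ) 𝔣 χ (fun ψ => (hR ψ).ch) hmul Finset.univ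
    (fun _ _ _ _ => Finset.mem_univ _)).1 (fun 𝔣 => rs (ordK h) (gn 𝔣)) (Zf h c ω)
  refine ⟨⟨(r : ℂ) * ∏ ψ, G ψ 1, (hr _).2 rfl⟩, r * k * (if e = 1 then 1 else -1), fun x hx => ?_⟩
  rw [(hr x).1 hx, Finset.prod_congr rfl fun ψ _ => g3 ψ, Finset.prod_mul_distrib, Finset.prod_const,
    Finset.card_univ, ← Nat.card_eq_fintype_card, hcardG, Finset.prod_div_distrib, hgs,
    finprod_eq_prod_of_fintype]
  have hk' : ∏ ψ, sZ h c ω (𝔣 ψ) (χ ψ) = (k : ℂ) := hk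
  rw [hk']
  have hD : (0 : ℝ) < √(∏ ψ, (Ideal.absNorm (𝔣 ψ) : ℝ)) := by
    refine Real.sqrt_pos.2 (Finset.prod_pos fun ψ _ => ?_)
    have : Ideal.absNorm (𝔣 ψ) ≠ 0 := by
      rw [Ne, Ideal.absNorm_eq_zero_iff]
      exact (hR ψ).ch.f0
    positivity
  generalize √(∏ ψ, (Ideal.absNorm (𝔣 ψ) : ℝ)) = D at hD
  have hD' : (D : ℂ) ≠ 0 := by exact_mod_cast hD.ne'
  have hee : (((if e = 1 then 1 else -1 : ℚ)) : ℂ) = (e : ℂ) := by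
    rcases he with rfl | rfl
    · simp
    · norm_num
  have he2 : (e : ℂ) * (e : ℂ) = 1 := by
    rcases he with rfl | rfl
    · simp
    · norm_num
  have he0 : (e : ℂ) ≠ 0 := fun h0 => by
    rw [h0, zero_mul] at he2
    exact zero_ne_one he2
  push_cast
  rw [hee]
  have h3 : (k : ℂ) / ((e : ℂ) * (D : ℂ)) = (k : ℂ) * (e : ℂ) / (D : ℂ) := by
    rw [div_eq_div_iff (mul_ne_zero he0 hD') hD']
    linear_combination (-(k : ℂ) * D) * he2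
  rw [h3]
  ring

end ext

end Pool.Agent.L7h82.RL
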