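import Pool.Agent.L7h82.RL.Stm2

/-!
# Project RL, second theorem: the Euler factors without a choice of the characters: statements
-/

set_option autoImplicit false
set_option linter.unusedSectionVars false

namespace Pool.Agent.L7h82.RL

open NumberField IsDedekindDomain
open Pool.Agent.K4H55.BI (gen)

/-- **EXC** (pure).  A rational representation of a finite commutative group is diagonalizable over `ℂ`.  Sketch: for
`e ψ = (1/#G) ∑ g, (ψ g)⁻¹ ρ g`: `ρ h e ψ = ψ h e ψ`, and `∑ ψ, e ψ = 1` (`∑ ψ, ψ g = 0` for `g ≠ 1`); so the set `S` of the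
simultaneous eigenvectors spans `ℂ ^ k`, and it contains a basis (`exists_linearIndependent`), `P` = the matrix of this basis.  The
statement on `charpoly` follows. -/
def S_EXC : Prop := ∀ (G : Type) [CommGroup G] [Finite G] (k : ℕ) (ρ : G →* Matrix (Fin k) (Fin k) ℚ),
  ∃ (P : Matrix (Fin k) (Fin k) ℂ) (ψ : Fin k → (G →* ℂˣ)), IsUnit P ∧
    (∀ g, (ρ g).map (algebraMap ℚ ℂ) * P = P * Matrix.diagonal fun i => ((ψ i g : ℂˣ) : ℂ)) ∧
    ∀ g, ((ρ g).map (algebraMap ℚ ℂ)).charpoly = ∏ i, (Polynomial.X - Polynomial.C ((ψ i g : ℂˣ) : ℂ))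

section

variable {K : Type} [Field K] [NumberField K]

/-- the Frobenius automorphisms at `u` -/
def FS (F : Type) [Field F] [NumberField F] [Algebra K F] (v : HeightOneSpectrum (𝓞 K))
    (u : HeightOneSpectrum (𝓞 F)) : Set (F ≃ₐ[K] F) :=
  {t | ∀ x : 𝓞 F, t • x - x ^ Ideal.absNorm v.asIdeal ∈ u.asIdeal}

end

open Classical in
/-- **EUL**: the mean of `ψ` over the Frobenius automorphisms at `u` is `χ(v)` (for `v ∣ 𝔣` both are zero: `FS` is stable
under the inertia group, on which `ψ` is not trivial; for `v ∤ 𝔣` every term is `χ(v)`); `FS` is not empty. -/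
def S_EUL : Prop := ∀ (K F : Type) [Field K] [NumberField K] [IsPrincipalIdealRing (𝓞 K)] [Field F] [NumberField F]
  [Algebra K F] [IsGalois K F] (ψ : (F ≃ₐ[K] F) →* ℂˣ) (𝔣 : Ideal (𝓞 K)) (χ : 𝓞 K → ℂ), RC ψ 𝔣 χ →
  ∀ (v : HeightOneSpectrum (𝓞 K)) (u : HeightOneSpectrum (𝓞 F)),
    u.asIdeal.comap (algebraMap (𝓞 K) (𝓞 F)) = v.asIdeal →
    0 < Nat.card (FS (K := K) F v u) ∧
    (Nat.card (FS (K := K) F v u) : ℂ)⁻¹ * (∑ t : F ≃ₐ[K] F, if t ∈ FS F v u then ((ψ t : ℂˣ) : ℂ) else 0) = χ (gen v)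

end Pool.Agent.L7h82.RL
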