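import Pool.Agent.L7h82.RL.Fin
import Pool.Agent.L7h60.RL.Ratm
import Pool.Agent.L7h60.RL.Gsm
import Pool.Agent.L7h60.RL.Stab
import Pool.Agent.L7h23.RL.Qd
import Pool.Agent.L7h23.RL.Cp
import Pool.Agent.L7h53.RL.Dr
import Pool.Agent.L7h82.RL.Stm3

/-!
The constant `τ` for all rational representations.
-/

set_option autoImplicit false
set_option linter.unusedSectionVars false

namespace Pool.Agent.L7h82.RL

open NumberField NumberField.InfinitePlace IsDedekindDomain Filter Topology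
open Pool.Agent.K4H55.BI (rs Prd ee kap kap_pos fv MF IQ BF ordK gen nu)
open Pool.Agent.K4H55.BK (Vals nu_card)
open Pool.Agent.K4H55.CX (br efx facF ord)
open Pool.Agent.W189.NF (aV eV)
open scoped ComplexConjugate

variable {K : Type} [Field K] [NumberField K] [hP : IsPrincipalIdealRing (𝓞 K)] {σ : K →+* ℂ}
  {δ : K} {n : 𝓞 K} {c : Ideal (𝓞 K) → ℂ}

section pure

lemma aeval_conj {k : ℕ} {A P : Matrix (Fin k) (Fin k) ℂ} {d : Fin k → ℂ} (h : A * P = P * Matrix.diagonal d)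
    (p : Polynomial ℂ) : Polynomial.aeval A p * P = P * Matrix.diagonal fun i => p.eval (d i) := by
  have hpow : ∀ j : ℕ, A ^ j * P = P * Matrix.diagonal fun i => d i ^ j := by
    intro j
    induction j with
    | zero =>
      have : (Matrix.diagonal fun i : Fin k => d i ^ 0) = 1 := by
        simp
      rw [this, pow_zero, one_mul, mul_one]
    | succ j ih =>
      rw [pow_succ, mul_assoc, h, ← mul_assoc, ih, mul_assoc, Matrix.diagonal_mul_diagonal]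
      congr 2
  induction p using Polynomial.induction_on' with
  | add p q hp hq =>
    rw [map_add, add_mul, hp, hq, ← mul_add, Matrix.diagonal_add]
    congr 2
    funext i
    rw [Polynomial.eval_add]
  | monomial j a =>
    rw [Polynomial.aeval_monomial, mul_assoc, hpow]
    have e1 : (algebraMap ℂ (Matrix (Fin k) (Fin k) ℂ)) a = a • 1 := Algebra.algebraMap_eq_smul_one a
    rw [e1, smul_mul_assoc, one_mul, ← mul_smul_comm, ← Matrix.diagonal_smul]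
    congr 2
    funext i
    rw [Polynomial.eval_monomial]
    rfl

lemma det_aeval {k : ℕ} {A P : Matrix (Fin k) (Fin k) ℂ} {d : Fin k → ℂ} (hP : IsUnit P)
    (h : A * P = P * Matrix.diagonal d) (p : Polynomial ℂ) :
    (Polynomial.aeval A p).det = ∏ i, p.eval (d i) := by
  have h1 := congrArg Matrix.det (aeval_conj h p)
  rw [Matrix.det_mul, Matrix.det_mul, Matrix.det_diagonal] at h1
  have h2 : P.det ≠ 0 := ((Matrix.isUnit_iff_isUnit_det P).1 hP).ne_zero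
  apply mul_right_cancel₀ h2
  rw [h1, mul_comm]

end pure

section euler

variable {F : Type} [Field F] [NumberField F] [Algebra K F] [IsGalois K F]

open Classical in
/-- the mean of `ρ` over the Frobenius automorphisms -/
noncomputable def fm {K : Type} [Field K] [NumberField K] {F : Type} [Field F] [NumberField F] [Algebra K F]
    {k : ℕ} (ρ : (F ≃ₐ[K] F) →* Matrix (Fin k) (Fin k) ℚ) (v : HeightOneSpectrum (𝓞 K))
    (u : HeightOneSpectrum (𝓞 F)) : Matrix (Fin k) (Fin k) ℂ :=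
  (Nat.card (FS (K := K) F v u) : ℂ)⁻¹ • ∑ t : F ≃ₐ[K] F, if t ∈ FS F v u then (ρ t).map (algebraMap ℚ ℂ) else 0

lemma fm_conj (hEUL : S_EUL) {k : ℕ} {ρ : (F ≃ₐ[K] F) →* Matrix (Fin k) (Fin k) ℚ}
    {P : Matrix (Fin k) (Fin k) ℂ} {ψ : Fin k → ((F ≃ₐ[K] F) →* ℂˣ)}
    (hP : ∀ g, (ρ g).map (algebraMap ℚ ℂ) * P = P * Matrix.diagonal fun i => ((ψ i g : ℂˣ) : ℂ))
    {𝔣 : ((F ≃ₐ[K] F) →* ℂˣ) → Ideal (𝓞 K)} {χ : ((F ≃ₐ[K] F) →* ℂˣ) → 𝓞 K → ℂ}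
    (hR : ∀ ψ, RC ψ (𝔣 ψ) (χ ψ)) {v : HeightOneSpectrum (𝓞 K)} {u : HeightOneSpectrum (𝓞 F)}
    (hu : u.asIdeal.comap (algebraMap (𝓞 K) (𝓞 F)) = v.asIdeal) :
    fm ρ v u * P = P * Matrix.diagonal fun i => χ (ψ i) (gen v) := by
  classical
  unfold fm
  rw [smul_mul_assoc, Finset.sum_mul]
  have h1 : ∀ t : F ≃ₐ[K] F, (if t ∈ FS F v u then (ρ t).map (algebraMap ℚ ℂ) else 0) * P =
      P * Matrix.diagonal fun i => if t ∈ FS F v u then ((ψ i t : ℂˣ) : ℂ) else 0 := by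
    intro t
    by_cases ht : t ∈ FS F v u
    · simp only [if_pos ht]
      exact hP t
    · simp only [if_neg ht, zero_mul]
      have : (Matrix.diagonal fun _ : Fin k => (0 : ℂ)) = 0 := Matrix.diagonal_zero
      rw [this, mul_zero]
  rw [Finset.sum_congr rfl fun t _ => h1 t, ← Finset.mul_sum, ← mul_smul_comm]
  congr 1
  ext i j
  rw [Matrix.smul_apply, Matrix.sum_apply]
  by_cases hij : i = j
  · subst hij
    simp only [Matrix.diagonal_apply_eq]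
    rw [smul_eq_mul]
    exact (hEUL K F (ψ i) (𝔣 (ψ i)) (χ (ψ i)) (hR _) v u hu).2
  · simp only [Matrix.diagonal_apply_ne _ hij, Finset.sum_const_zero, smul_zero]

lemma factor_eq (hEUL : S_EUL) {k : ℕ} {ρ : (F ≃ₐ[K] F) →* Matrix (Fin k) (Fin k) ℚ}
    {P : Matrix (Fin k) (Fin k) ℂ} (hPu : IsUnit P) {ψ : Fin k → ((F ≃ₐ[K] F) →* ℂˣ)}
    (hP : ∀ g, (ρ g).map (algebraMap ℚ ℂ) * P = P * Matrix.diagonal fun i => ((ψ i g : ℂˣ) : ℂ))
    {𝔣 : ((F ≃ₐ[K] F) →* ℂˣ) → Ideal (𝓞 K)} {χ : ((F ≃ₐ[K] F) →* ℂˣ) → 𝓞 K → ℂ}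
    (hR : ∀ ψ, RC ψ (𝔣 ψ) (χ ψ)) {v : HeightOneSpectrum (𝓞 K)} {u : HeightOneSpectrum (𝓞 F)}
    (hu : u.asIdeal.comap (algebraMap (𝓞 K) (𝓞 F)) = v.asIdeal) {p : Polynomial ℂ}
    (hp : p = 1 - Polynomial.C (c v.asIdeal) * Polynomial.X +
      Polynomial.C (open Classical in if n ∈ v.asIdeal then 0 else (Ideal.absNorm v.asIdeal : ℂ)) * Polynomial.X ^ 2)
    (s : ℂ) :
    ((Polynomial.aeval ((Ideal.absNorm v.asIdeal : ℂ) ^ (-s) • fm ρ v u) p).det)⁻¹ =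
      ∏ i, efx n c (χ (ψ i)) s v := by
  classical
  set N : ℂ := (Ideal.absNorm v.asIdeal : ℂ) with hN
  have hN0 : N ≠ 0 := by
    rw [hN]
    have : Ideal.absNorm v.asIdeal ≠ 0 := by
      rw [Ne, Ideal.absNorm_eq_zero_iff]
      exact v.ne_bot
    exact_mod_cast this
  have h1 : (N ^ (-s) • fm ρ v u) * P = P * Matrix.diagonal fun i => N ^ (-s) * χ (ψ i) (gen v) := by
    rw [smul_mul_assoc, fm_conj hEUL hP hR hu, ← mul_smul_comm, ← Matrix.diagonal_smul]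
    rfl
  rw [det_aeval hPu h1, ← Finset.prod_inv_distrib]
  refine Finset.prod_congr rfl fun i _ => ?_
  unfold efx
  congr 1
  rw [hp]
  simp only [Polynomial.eval_add, Polynomial.eval_sub, Polynomial.eval_one, Polynomial.eval_mul, Polynomial.eval_C,
    Polynomial.eval_X, Polynomial.eval_pow]
  by_cases hv : n ∈ v.asIdeal
  · simp only [if_pos hv]
    ring
  · simp only [if_neg hv]
    have e1 : N ^ (1 - 2 * s) = N * (N ^ (-s)) ^ 2 := by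
      rw [← Complex.cpow_nat_mul, show (1 - 2 * s : ℂ) = 1 + ((2 : ℕ) : ℂ) * (-s) by push_cast; ring,
        Complex.cpow_add _ _ hN0, Complex.cpow_one]
    rw [← hN, e1]
    ring

end euler

/-- **the twists by a rational representation** -/
theorem val_rho (h : IQ K σ δ) (hf : BF σ δ n c)
    {ω : ℂ} (hω : ∀ l ∈ Vals σ δ n c, ∃ j : ℤ, l = j * ω)
    {F : Type} [Field F] [NumberField F] [Algebra K F] [IsGalois K F]
    (hab : ∀ s t : F ≃ₐ[K] F, s * t = t * s)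
    {𝔣 : ((F ≃ₐ[K] F) →* ℂˣ) → Ideal (𝓞 K)} {χ : ((F ≃ₐ[K] F) →* ℂˣ) → 𝓞 K → ℂ}
    (hR : ∀ ψ, RC ψ (𝔣 ψ) (χ ψ))
    (hn : ∀ ψ, ∀ v : HeightOneSpectrum (𝓞 K), 𝔣 ψ ≤ v.asIdeal → n ∉ v.asIdeal)
    (hC : CDF K F 𝔣)
    {k : ℕ} (ρ : (F ≃ₐ[K] F) →* Matrix (Fin k) (Fin k) ℚ) (ψ : Fin k → ((F ≃ₐ[K] F) →* ℂˣ))
    (hψ : ∀ g, ((ρ g).map (algebraMap ℚ ℂ)).charpoly = ∏ i, (Polynomial.X - Polynomial.C ((ψ i g : ℂˣ) : ℂ)))
    :
    ∃ Λ : ℂ → ℂ, Differentiable ℂ Λ ∧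
      (∀ s : ℂ, 2 < s.re → HasProd (fun v => ∏ i, efx n c (χ (ψ i)) s v) (Λ s)) ∧
      ∀ (ν : F →+* ℂ), (∀ x : K, ν (algebraMap K F x) = σ x) → ∀ (b : Fin k × Fin 2 → Fin k → F), IsB ρ b →
      ∃ q : ℚ, Λ 1 * (MD ν b).det = (q : ℂ) * (kap (ordK h) * ω / nu (𝓞 K)) ^ k *
        (Complex.I * (√|(discr K : ℝ)| : ℝ)) ^ k ∧ (MD ν b).det ≠ 0 := by
  classical
  have hfinG : Finite ((F ≃ₐ[K] F) →* ℂˣ) := by
    refine Nat.finite_of_card_ne_zero ?_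
    let _ : CommGroup (F ≃ₐ[K] F) := { (inferInstance : Group (F ≃ₐ[K] F)) with mul_comm := hab }
    have e := CommGroup.card_monoidHom_of_hasEnoughRootsOfUnity (F ≃ₐ[K] F) ℂ
    have e2 : 0 < Nat.card (F ≃ₐ[K] F) := Nat.card_pos
    intro h0
    have e3 : Nat.card ((F ≃ₐ[K] F) →* ℂˣ) = Nat.card (F ≃ₐ[K] F) := e
    omega
  have hFt : Fintype ((F ≃ₐ[K] F) →* ℂˣ) := Fintype.ofFinite _
  obtain ⟨hmul, -, -⟩ := L7h60.RL.s_CLS K F hab 𝔣 χ hR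
  choose G g1 g2 g3 using fun ψ => val_one h hf hω (hR ψ).ch (hn ψ)
  obtain ⟨hst, hdet⟩ : Stab ψ ∧ ∀ g, ∏ i, ((ψ i g : ℂˣ) : ℂ) = ((ρ g).det : ℂ) := by
    let _ : CommGroup (F ≃ₐ[K] F) := { (inferInstance : Group (F ≃ₐ[K] F)) with mul_comm := hab }
    exact L7h60.RL.s_STAB (F ≃ₐ[K] F) k ρ ψ hψ
  obtain ⟨r, hr⟩ := L7h60.RL.s_RATM L7h50.RL.s_CYC L7h50.RL.s_POW L7h50.RL.s_RAT K ((F ≃ₐ[K] F) →* ℂˣ) 𝔣 χ
    (fun ψ => (hR ψ).ch) hmul k ψ hst (fun 𝔣 => rs (ordK h) (gn 𝔣)) (Zf h c ω)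
  obtain ⟨e, he, hgs⟩ := L7h60.RL.s_GSM s_PCK s_GM L7h50.RL.s_POW K σ δ h ((F ≃ₐ[K] F) →* ℂˣ) 𝔣 χ
    (fun ψ => (hR ψ).ch) hmul k ψ hst
  have hr' : ∏ i, sZ h c ω (𝔣 (ψ i)) (χ (ψ i)) = (r : ℂ) := hr
  have hD : (0 : ℝ) < √(∏ i, (Ideal.absNorm (𝔣 (ψ i)) : ℝ)) := by
    refine Real.sqrt_pos.2 (Finset.prod_pos fun i _ => ?_)
    have : Ideal.absNorm (𝔣 (ψ i)) ≠ 0 := by
      rw [Ne, Ideal.absNorm_eq_zero_iff]
      exact (hR (ψ i)).ch.f0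
    positivity
  have hdK : 0 < √|(discr K : ℝ)| := by
    have : (discr K : ℝ) ≠ 0 := by exact_mod_cast discr_ne_zero K
    positivity
  refine ⟨fun s => ∏ i, G (ψ i) s, ?_, fun s hs => hasProd_prod fun i _ => g2 (ψ i) s hs, ?_⟩
  · have : Differentiable ℂ (fun s => ∏ i ∈ (Finset.univ : Finset (Fin k)), G (ψ i) s) :=
      Differentiable.fun_finsetProd fun i _ => g1 (ψ i)
    exact this
  intro ν hν b hb
  obtain ⟨y, q1, hy, hq1, hgy, hMD⟩ := L7h53.RL.s_DR K F σ δ h ν hν k ρ b hb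
  obtain ⟨q2, hq2, hy2⟩ := L7h23.RL.s_CP L7h23.RL.s_QD L7h50.RL.s_POW L7h60.RL.s_CLS K F σ δ h hab ν hν 𝔣 χ hR hC k ψ hst
    (fun g => (ρ g).det) hdet y hy hgy
  refine ⟨r * q1 * q2 * (if e = 1 then 1 else -1), ?_, ?_⟩
  · show (∏ i, G (ψ i) 1) * _ = _
    rw [Finset.prod_congr rfl fun i _ => g3 (ψ i), Finset.prod_mul_distrib, Finset.prod_const,
      Finset.card_univ, Fintype.card_fin, Finset.prod_div_distrib, hgs, hr', hMD, hy2]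
    generalize √(∏ i, (Ideal.absNorm (𝔣 (ψ i)) : ℝ)) = D at hD
    have hD' : (D : ℂ) ≠ 0 := by exact_mod_cast hD.ne'
    have hee : (((if e = 1 then 1 else -1 : ℚ)) : ℂ) = (e : ℂ) := by
      rcases he with rfl | rfl
      · simp
      · norm_num
    have he2 : (e : ℂ) * (e : ℂ) = 1 := by
      rcases he with rfl | rfl
      · simp
      · norm_num
    have he0 : (e : ℂ) ≠ 0 := fun h0 => by
      rw [h0, zero_mul] at he2
      exact zero_ne_one he2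
    push_cast
    rw [hee]
    have h3 : (r : ℂ) / ((e : ℂ) * (D : ℂ)) = (r : ℂ) * (e : ℂ) / (D : ℂ) := by
      rw [div_eq_div_iff (mul_ne_zero he0 hD') hD']
      linear_combination (-(r : ℂ) * D) * he2
    rw [h3]
    field_simp
  · rw [hMD]
    refine mul_ne_zero (mul_ne_zero (by exact_mod_cast hq1) (pow_ne_zero _ (mul_ne_zero Complex.I_ne_zero
      (by exact_mod_cast hdK.ne')))) ?_
    have : ν y ≠ 0 := by
      rw [Ne, map_eq_zero]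
      exact hy
    have h2 : ‖ν y‖ ^ 2 ≠ 0 := by positivity
    exact_mod_cast h2

lemma alg2 (A w t s k P : ℂ) (m : ℕ) (hs : s * s = 1) (hP : P ≠ 0) :
    (A * (t * w)) ^ m * (Complex.I * k) ^ m =
      (t * s / 2) ^ m * (2 * Complex.I * (s * P)) ^ m * (A * w * k / P) ^ m := by
  rw [← mul_pow, ← mul_pow, ← mul_pow]
  congr 1
  field_simp
  linear_combination (-(A * t * w * k)) * hs

open Classical in
/-- **one constant for all rational representations** -/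
theorem fin2 (hEUL : S_EUL) (hEXC : S_EXC) (h : IQ K σ δ) (hf : BF σ δ n c) {a b : K}
    (hint : ∀ v : HeightOneSpectrum (𝓞 K), ∃ m : ℤ, c v.asIdeal = m)
    {ω : ℂ} (hω' : ω ∈ AddSubgroup.closure (Vals σ δ n c))
    (hω : ∀ l ∈ AddSubgroup.closure (Vals σ δ n c), ∃ j : ℤ, l = j * ω) :
    ∃ τ : ℝ, 0 < τ ∧ ∀ (F : Type) [Field F] [NumberField F] [Algebra K F] [IsGalois K F],
      (∀ s t : F ≃ₐ[K] F, s * t = t * s) →
      ∀ (𝔣 : ((F ≃ₐ[K] F) →* ℂˣ) → Ideal (𝓞 K)) (χ : ((F ≃ₐ[K] F) →* ℂˣ) → 𝓞 K → ℂ),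
      (∀ ψ, RC ψ (𝔣 ψ) (χ ψ)) →
      (∀ ψ, ∀ v : HeightOneSpectrum (𝓞 K), 𝔣 ψ ≤ v.asIdeal → n ∉ v.asIdeal) → CDF K F 𝔣 →
      ∀ (k : ℕ) (ρ : (F ≃ₐ[K] F) →* Matrix (Fin k) (Fin k) ℚ),
      ∃ Λ : ℂ → ℂ, Differentiable ℂ Λ ∧
        (∀ (p : HeightOneSpectrum (𝓞 K) → Polynomial ℂ), (∀ v, p v = 1 - Polynomial.C (c v.asIdeal) * Polynomial.X +
          Polynomial.C (if n ∈ v.asIdeal then 0 else (Ideal.absNorm v.asIdeal : ℂ)) * Polynomial.X ^ 2) →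
          ∀ u : HeightOneSpectrum (𝓞 K) → HeightOneSpectrum (𝓞 F),
          (∀ v, (u v).asIdeal.comap (algebraMap (𝓞 K) (𝓞 F)) = v.asIdeal) → ∀ s : ℂ, 2 < s.re →
          HasProd (fun v => ((Polynomial.aeval ((Ideal.absNorm v.asIdeal : ℂ) ^ (-s) • fm ρ v (u v)) (p v)).det)⁻¹)
            (Λ s)) ∧
        ∀ (ν : F →+* ℂ), (∀ x : K, ν (algebraMap K F x) = σ x) → ∀ (L : PeriodPair), L.g₂ = -4 * σ a →
          L.g₃ = -4 * σ b → ∀ (B : Fin k × Fin 2 → Fin k → F), IsB ρ B →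
          ∃ q : ℚ, Λ 1 = (q : ℂ) * ((MB k ![L.ω₁, L.ω₂]).det / (MD ν B).det * (τ : ℂ) ^ k) := by
  have hω1 : ∀ l ∈ Vals σ δ n c, ∃ j : ℤ, l = j * ω := fun l hl =>
    hω l (AddSubgroup.subset_closure hl)
  have hωim : ω.im = 0 := real_closure (L7h53.RL.s_REAL K σ δ n c h hf hint) hω'
  set A : ℝ := kap (ordK h) / (Nat.card (𝓞 K)ˣ : ℝ) with hA
  have hA0 : 0 < A := by
    have : 0 < Nat.card (𝓞 K)ˣ := by
      have h1 := K4H55.BI.nu_ne (ordK h)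
      rw [nu_card h] at h1
      exact Nat.pos_of_ne_zero fun h2 => h1 (by rw [h2]; norm_num)
    have := kap_pos (ordK h)
    positivity
  have hAω : (kap (ordK h) : ℂ) * ω / nu (𝓞 K) = ((A * ω.re : ℝ) : ℂ) := by
    rw [nu_card h, hA]
    have : ω = (ω.re : ℂ) := by
      apply Complex.ext
      · simp
      · rw [hωim]; simp
    rw [this]
    push_cast
    simp only [Complex.ofReal_re]
    ring
  have hdK : 0 < √|(discr K : ℝ)| := by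
    have : (discr K : ℝ) ≠ 0 := by exact_mod_cast discr_ne_zero K
    positivity
  -- the constant
  obtain ⟨τ, hτ, hτ2⟩ : ∃ τ : ℝ, 0 < τ ∧ ∀ L : PeriodPair, L.g₂ = -4 * σ a → L.g₃ = -4 * σ b → ω ≠ 0 →
      τ = A * |ω.re| * √|(discr K : ℝ)| / |(L.ω₁ * conj L.ω₂).im| := by
    by_cases hL : (∃ L0 : PeriodPair, L0.g₂ = -4 * σ a ∧ L0.g₃ = -4 * σ b) ∧ ω ≠ 0
    · obtain ⟨⟨L0, h2, h3⟩, h0⟩ := hL
      have h1 : ω.re ≠ 0 := fun h2 => h0 (Complex.ext h2 hωim)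
      have h4 := im_ne L0
      refine ⟨A * |ω.re| * √|(discr K : ℝ)| / |(L0.ω₁ * conj L0.ω₂).im|, by positivity, fun L h5 h6 _ => ?_⟩
      rw [L7h65.RL2.per L0 L (Or.inl ⟨h5.trans h2.symm, h6.trans h3.symm⟩)]
    · exact ⟨1, one_pos, fun L h2 h3 h0 => absurd ⟨⟨L, h2, h3⟩, h0⟩ hL⟩
  refine ⟨τ, hτ, fun F _ _ _ _ hab 𝔣 χ hR hn hC k ρ => ?_⟩
  obtain ⟨P, ψ, hPu, hP, hψ⟩ : ∃ (P : Matrix (Fin k) (Fin k) ℂ) (ψ : Fin k → ((F ≃ₐ[K] F) →* ℂˣ)), IsUnit P ∧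
    (∀ g, (ρ g).map (algebraMap ℚ ℂ) * P = P * Matrix.diagonal fun i => ((ψ i g : ℂˣ) : ℂ)) ∧
    ∀ g, ((ρ g).map (algebraMap ℚ ℂ)).charpoly = ∏ i, (Polynomial.X - Polynomial.C ((ψ i g : ℂˣ) : ℂ)) := by
    let _ : CommGroup (F ≃ₐ[K] F) := { (inferInstance : Group (F ≃ₐ[K] F)) with mul_comm := hab }
    exact hEXC (F ≃ₐ[K] F) k ρ
  obtain ⟨Λ, h1, h2, h3⟩ := val_rho h hf hω1 hab hR hn hC ρ ψ hψ
  refine ⟨Λ, h1, fun p hp u hu s hs => ?_, fun ν hν L hg2 hg3 B hB => ?_⟩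
  · have h4 := h2 s hs
    have h5 : (fun v => ((Polynomial.aeval ((Ideal.absNorm v.asIdeal : ℂ) ^ (-s) • fm ρ v (u v)) (p v)).det)⁻¹) =
        fun v => ∏ i, efx n c (χ (ψ i)) s v :=
      funext fun v => factor_eq hEUL hPu hP hR (hu v) (hp v) s
    rw [h5]
    exact h4
  · obtain ⟨q, hq, hMD0⟩ := h3 ν hν B hB
    rw [hAω] at hq
    have hMB : (MB k ![L.ω₁, L.ω₂]).det = (2 * Complex.I * ((L.ω₁ * conj L.ω₂).im : ℂ)) ^ k := by
      rw [L7h23.RL.s_MBD k ![L.ω₁, L.ω₂]]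
      congr 1
      show L.ω₁ * conj L.ω₂ - L.ω₂ * conj L.ω₁ = _
      have e1 : L.ω₂ * conj L.ω₁ = conj (L.ω₁ * conj L.ω₂) := by
        rw [map_mul, Complex.conj_conj, mul_comm]
      rw [e1, Complex.sub_conj, Complex.ofReal_mul]
      push_cast
      ring
    have e3 : Λ 1 = (q : ℂ) * ((A * ω.re : ℝ) : ℂ) ^ k * (Complex.I * (√|(discr K : ℝ)| : ℝ)) ^ k / (MD ν B).det := by
      rw [← hq, mul_div_assoc, div_self hMD0, mul_one]
    by_cases h0 : ω = 0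
    · rcases Nat.eq_zero_or_pos k with rfl | hk
      · refine ⟨q, ?_⟩
        rw [e3, hMB]
        simp only [pow_zero]
        ring
      · refine ⟨0, ?_⟩
        rw [e3, h0]
        simp [hk.ne']
    have hre : ω.re ≠ 0 := fun h2 => h0 (Complex.ext h2 hωim)
    obtain ⟨t, t', ht, ht', hω3⟩ : ∃ (t : ℝ) (t' : ℚ), t * t = 1 ∧ (t' : ℝ) = t ∧ ω.re = t * |ω.re| := by
      rcases abs_choice ω.re with h2 | h2
      · exact ⟨1, 1, by norm_num, by norm_num, by rw [h2]; ring⟩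
      · exact ⟨-1, -1, by norm_num, by norm_num, by rw [h2]; ring⟩
    obtain ⟨s, s', hs, hs', him⟩ : ∃ (s : ℝ) (s' : ℚ), s * s = 1 ∧ (s' : ℝ) = s ∧
        (L.ω₁ * conj L.ω₂).im = s * |(L.ω₁ * conj L.ω₂).im| := by
      rcases abs_choice (L.ω₁ * conj L.ω₂).im with h2 | h2
      · exact ⟨1, 1, by norm_num, by norm_num, by rw [h2]; ring⟩
      · exact ⟨-1, -1, by norm_num, by norm_num, by rw [h2]; ring⟩
    have hP0 : |(L.ω₁ * conj L.ω₂).im| ≠ 0 := abs_ne_zero.2 (im_ne L)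
    refine ⟨q * (t' * s' / 2) ^ k, ?_⟩
    rw [e3, hMB, hτ2 L hg2 hg3 h0]
    have e4 := alg2 (A : ℂ) (|ω.re| : ℝ) t s (√|(discr K : ℝ)| : ℝ) (|(L.ω₁ * conj L.ω₂).im| : ℝ) k
      (by exact_mod_cast hs) (by exact_mod_cast hP0)
    have e5 : ((A * ω.re : ℝ) : ℂ) = (A : ℂ) * ((t : ℂ) * ((|ω.re| : ℝ) : ℂ)) := by
      rw [← Complex.ofReal_mul, ← Complex.ofReal_mul, ← hω3]
    have e6 : (((L.ω₁ * conj L.ω₂).im : ℝ) : ℂ) = (s : ℂ) * ((|(L.ω₁ * conj L.ω₂).im| : ℝ) : ℂ) := by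
      rw [← Complex.ofReal_mul, ← him]
    have e7 : ((t' : ℚ) : ℂ) = (t : ℂ) := by rw [← ht']; norm_cast
    have e8 : ((s' : ℚ) : ℂ) = (s : ℂ) := by rw [← hs']; norm_cast
    rw [e5, e6, mul_assoc (q : ℂ), e4]
    push_cast
    rw [e7, e8]
    ring

end Pool.Agent.L7h82.RL
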