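import Pool.Agent.L7h82.RL.Asm

/-!
The constant `τ`.
-/

set_option autoImplicit false
set_option linter.unusedSectionVars false

namespace Pool.Agent.L7h82.RL

open NumberField NumberField.InfinitePlace IsDedekindDomain Filter Topology
open Pool.Agent.K4H55.BI (rs Prd ee kap kap_pos fv MF IQ BF ordK gen nu)
open Pool.Agent.K4H55.BK (Vals nu_card)
open Pool.Agent.K4H55.CX (br efx facF ord)
open Pool.Agent.W189.NF (aV eV)
open scoped ComplexConjugate

section places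

variable {K : Type} [Field K] [NumberField K] {σ : K →+* ℂ} {δ : K}

/-- the embeddings of `K` -/
lemma emb_two (h : IQ K σ δ) (g : K →+* ℂ) : g = σ ∨ g = (starRingEnd ℂ).comp σ := by
  classical
  by_contra hcon
  push Not at hcon
  obtain ⟨x, hx⟩ := h.cplx
  have hc : Fintype.card (K →+* ℂ) = 2 := by rw [Embeddings.card, h.deg]
  have h3 : σ ≠ (starRingEnd ℂ).comp σ := by
    intro h1
    exact hx (congrArg (fun t : K →+* ℂ => t x) h1).symm
  have h4 : ({g, σ, (starRingEnd ℂ).comp σ} : Finset (K →+* ℂ)).card = 3 := by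
    rw [Finset.card_insert_of_notMem, Finset.card_pair h3]
    simp only [Finset.mem_insert, Finset.mem_singleton]
    tauto
  have h5 := Finset.card_le_univ ({g, σ, (starRingEnd ℂ).comp σ} : Finset (K →+* ℂ))
  rw [h4, hc] at h5
  omega

lemma no_real (h : IQ K σ δ) (F : Type) [Field F] [NumberField F] [Algebra K F] :
    nrRealPlaces F = 0 := by
  classical
  unfold nrRealPlaces
  refine (@Fintype.card_eq_zero_iff _ _).2 ⟨fun w => ?_⟩
  have h1 := emb_two h (Complex.ofRealHom.comp ((embedding_of_isReal w.2).comp (algebraMap K F)))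
  obtain ⟨x, hx⟩ := h.cplx
  apply hx
  set r : ℝ := (embedding_of_isReal w.2) (algebraMap K F x) with hr
  rcases h1 with h1 | h1
  · have h2 : ((r : ℝ) : ℂ) = σ x := congrArg (fun t : K →+* ℂ => t x) h1
    rw [← h2]
    exact Complex.conj_ofReal _
  · have h2 : ((r : ℝ) : ℂ) = conj (σ x) := congrArg (fun t : K →+* ℂ => t x) h1
    have h3 := congrArg conj h2
    rw [Complex.conj_conj, Complex.conj_ofReal] at h3
    rw [← h2, h3]

lemma card_places (h : IQ K σ δ) (F : Type) [Field F] [NumberField F] [Algebra K F] :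
    Fintype.card (InfinitePlace F) = Module.finrank K F := by
  have h1 := card_add_two_mul_card_eq_rank F
  have h3 := card_eq_nrRealPlaces_add_nrComplexPlaces F
  rw [no_real h F, zero_add] at h1 h3
  have h2 := Module.finrank_mul_finrank ℚ K F
  rw [h.deg] at h2
  omega

end places

/-- the values of the period `Ω` of `y² = x³ + a x + b` over a totally complex field -/
def IsOm (F : Type) [Field F] [NumberField F] (a b : F) (Ω : ℝ) : Prop :=
  ∃ (e : InfinitePlace F → (F →+* ℂ)) (L : InfinitePlace F → PeriodPair),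
    (∀ w, InfinitePlace.mk (e w) = w ∧ w.IsComplex ∧ (L w).g₂ = -4 * e w a ∧ (L w).g₃ = -4 * e w b) ∧
    Ω = √|(discr F : ℝ)| * ∏ w, ((L w).ω₁ * conj (L w).ω₂).im

lemma im_ne (L : PeriodPair) : (L.ω₁ * conj L.ω₂).im ≠ 0 := by
  intro h0
  have h1 := L.indep
  have h2 : L.ω₂ ≠ 0 := by
    have := h1.ne_zero 1
    simpa using this
  rw [LinearIndependent.pair_iff] at h1
  have h3 : ((L.ω₁ * conj L.ω₂).re : ℂ) = L.ω₁ * conj L.ω₂ := by
    apply Complex.ext
    · simp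
    · rw [h0]; simp
  have h4 : (Complex.normSq L.ω₂ : ℂ) = L.ω₂ * conj L.ω₂ := (Complex.mul_conj _).symm
  have h5 : conj L.ω₂ ≠ 0 := by
    rw [Ne, map_eq_zero]
    exact h2
  obtain ⟨h6, h7⟩ := h1 (Complex.normSq L.ω₂) (-(L.ω₁ * conj L.ω₂).re) (by
    rw [Complex.real_smul, Complex.real_smul, h4]
    push_cast
    rw [h3]
    ring)
  rw [Complex.normSq_eq_zero] at h6
  exact h2 h6

variable {K : Type} [Field K] [NumberField K] [hP : IsPrincipalIdealRing (𝓞 K)] {σ : K →+* ℂ}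
  {δ : K} {n : 𝓞 K} {c : Ideal (𝓞 K) → ℂ}

lemma om_eq (h : IQ K σ δ) {a b : K} (L0 : PeriodPair) (h2 : L0.g₂ = -4 * σ a) (h3 : L0.g₃ = -4 * σ b)
    {F : Type} [Field F] [NumberField F] [Algebra K F] {Ω : ℝ}
    (hO : IsOm F (algebraMap K F a) (algebraMap K F b) Ω) :
    ∃ s : ℝ, (s = 1 ∨ s = -1) ∧
      Ω = s * (√|(discr F : ℝ)| * |(L0.ω₁ * conj L0.ω₂).im| ^ Module.finrank K F) := by
  obtain ⟨e, L, hL, rfl⟩ := hO
  have hw : ∀ w, |((L w).ω₁ * conj (L w).ω₂).im| = |(L0.ω₁ * conj L0.ω₂).im| := by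
    intro w
    apply L7h65.RL2.per
    obtain ⟨-, -, k2, k3⟩ := hL w
    rcases emb_two h ((e w).comp (algebraMap K F)) with h1 | h1
    · left
      have e1 : e w (algebraMap K F a) = σ a := congrArg (fun t : K →+* ℂ => t a) h1
      have e2 : e w (algebraMap K F b) = σ b := congrArg (fun t : K →+* ℂ => t b) h1
      rw [k2, k3, h2, h3, e1, e2]
      exact ⟨rfl, rfl⟩
    · right
      have e1 : e w (algebraMap K F a) = conj (σ a) := congrArg (fun t : K →+* ℂ => t a) h1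
      have e2 : e w (algebraMap K F b) = conj (σ b) := congrArg (fun t : K →+* ℂ => t b) h1
      rw [k2, k3, h2, h3, e1, e2, map_mul, map_mul, map_neg, map_ofNat]
      exact ⟨rfl, rfl⟩
  have hprod : |∏ w, ((L w).ω₁ * conj (L w).ω₂).im| =
      |(L0.ω₁ * conj L0.ω₂).im| ^ Module.finrank K F := by
    rw [Finset.abs_prod, Finset.prod_congr rfl fun w _ => hw w, Finset.prod_const, Finset.card_univ,
      card_places h F]
  rcases abs_choice (∏ w, ((L w).ω₁ * conj (L w).ω₂).im) with h1 | h1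
  · refine ⟨1, Or.inl rfl, ?_⟩
    rw [← hprod, h1]
    ring
  · refine ⟨-1, Or.inr rfl, ?_⟩
    rw [← hprod, h1]
    ring

lemma real_closure {S : Set ℂ} (hS : ∀ z ∈ S, z.im = 0) {z : ℂ} (hz : z ∈ AddSubgroup.closure S) :
    z.im = 0 := by
  induction hz using AddSubgroup.closure_induction with
  | mem x hx => exact hS x hx
  | zero => rfl
  | add x y _ _ hx hy => rw [Complex.add_im, hx, hy, add_zero]
  | neg x _ hx => rw [Complex.neg_im, hx, neg_zero]

lemma alg (q s t A w k f P : ℝ) (N : ℕ) (hs : s * s = 1) (hP : P ≠ 0) (hk : k ≠ 0) (hf : f ≠ 0) :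
    q * (A * (t * w)) ^ N / (f / k ^ N) =
      q * s * t ^ N / (f * f) * (s * (f * P ^ N)) * (A * w * k / P) ^ N := by
  have hPN : P ^ N ≠ 0 := pow_ne_zero N hP
  have hKN : k ^ N ≠ 0 := pow_ne_zero N hk
  rw [div_pow, mul_pow, mul_pow, mul_pow, mul_pow]
  field_simp
  rw [show s ^ 2 = s * s by ring, hs]
  ring

/-- **one constant for all abelian extensions** -/
theorem fin (h : IQ K σ δ) (hf : BF σ δ n c) {a b : 𝓞 K} (hΔ : 4 * a ^ 3 + 27 * b ^ 2 ≠ 0)
    (hloc : ∀ v : HeightOneSpectrum (𝓞 K), c v.asIdeal = (aV (L7h15.BK.cv (a : K) (b : K)) v : ℂ) ∧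
      (eV (L7h15.BK.cv (a : K) (b : K)) v : ℂ) =
        open Classical in if n ∈ v.asIdeal then 0 else (Ideal.absNorm v.asIdeal : ℂ))
    {ω : ℂ} (hω' : ω ∈ AddSubgroup.closure (Vals σ δ n c))
    (hω : ∀ l ∈ AddSubgroup.closure (Vals σ δ n c), ∃ j : ℤ, l = j * ω) :
    ∃ τ : ℝ, 0 < τ ∧ ∀ (F : Type) [Field F] [NumberField F] [Algebra K F] [IsGalois K F],
      (∀ s t : F ≃ₐ[K] F, s * t = t * s) →
      ∀ (𝔣 : ((F ≃ₐ[K] F) →* ℂˣ) → Ideal (𝓞 K)) (χ : ((F ≃ₐ[K] F) →* ℂˣ) → 𝓞 K → ℂ),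
      (∀ ψ, RC ψ (𝔣 ψ) (χ ψ)) →
      (∀ ψ, ∀ v : HeightOneSpectrum (𝓞 K), 𝔣 ψ ≤ v.asIdeal → n ∉ v.asIdeal) →
      |(discr F : ℝ)| = |(discr K : ℝ)| ^ Module.finrank K F * ∏ᶠ ψ, (Ideal.absNorm (𝔣 ψ) : ℝ) →
      (∃ x, CentralValue (L7h15.BK.cv (algebraMap K F (a : K)) (algebraMap K F (b : K))) x) ∧
      ∀ (x : ℂ) (Ω : ℝ), CentralValue (L7h15.BK.cv (algebraMap K F (a : K)) (algebraMap K F (b : K))) x →
        IsOm F (algebraMap K F (a : K)) (algebraMap K F (b : K)) Ω →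
        ∃ q : ℚ, x = (q : ℂ) * Ω * (τ : ℂ) ^ Module.finrank K F := by
  classical
  have hω1 : ∀ l ∈ Vals σ δ n c, ∃ j : ℤ, l = j * ω := fun l hl =>
    hω l (AddSubgroup.subset_closure hl)
  have hωim : ω.im = 0 := real_closure (L7h53.RL.s_REAL K σ δ n c h hf fun v => ⟨_, (hloc v).1⟩) hω'
  set A : ℝ := kap (ordK h) / (Nat.card (𝓞 K)ˣ : ℝ) with hA
  have hA0 : 0 < A := by
    have : 0 < Nat.card (𝓞 K)ˣ := by
      have h1 := K4H55.BI.nu_ne (ordK h)
      rw [nu_card h] at h1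
      exact Nat.pos_of_ne_zero fun h2 => h1 (by rw [h2]; norm_num)
    have := kap_pos (ordK h)
    positivity
  have hAω : (kap (ordK h) : ℂ) * ω / nu (𝓞 K) = ((A * ω.re : ℝ) : ℂ) := by
    rw [nu_card h, hA]
    have : ω = (ω.re : ℂ) := by
      apply Complex.ext
      · simp
      · rw [hωim]; simp
    rw [this]
    push_cast
    simp only [Complex.ofReal_re]
    ring
  have hdK : 0 < √|(discr K : ℝ)| := by
    have : (discr K : ℝ) ≠ 0 := by exact_mod_cast discr_ne_zero K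
    positivity
  by_cases hL : ∃ L0 : PeriodPair, L0.g₂ = -4 * σ (a : K) ∧ L0.g₃ = -4 * σ (b : K)
  swap
  · refine ⟨1, one_pos, fun F _ _ _ _ hab 𝔣 χ hR hn hdisc => ?_⟩
    obtain ⟨h1, q, hq⟩ := val_F h hf hΔ hloc hω1 hab hR hn
    refine ⟨h1, fun x Ω hx hO => ?_⟩
    exfalso
    obtain ⟨e, L, hL', -⟩ := hO
    apply hL
    obtain ⟨w⟩ : Nonempty (InfinitePlace F) := inferInstance
    obtain ⟨-, -, k2, k3⟩ := hL' w
    rcases emb_two h ((e w).comp (algebraMap K F)) with h1 | h1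
    · refine ⟨L w, ?_, ?_⟩
      · rw [k2]
        exact congrArg (fun t : K →+* ℂ => -4 * t (a : K)) h1
      · rw [k3]
        exact congrArg (fun t : K →+* ℂ => -4 * t (b : K)) h1
    · refine ⟨L7h65.RL2.cj (L w), ?_, ?_⟩
      · have e1 : e w (algebraMap K F (a : K)) = conj (σ a) := congrArg (fun t : K →+* ℂ => t (a : K)) h1
        have e2 : (L7h65.RL2.cj (L w)).g₂ = conj (L w).g₂ := by
          unfold PeriodPair.g₂
          rw [L7h65.RL2.cj_G, map_mul, map_ofNat]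
        rw [e2, k2, e1, map_mul, Complex.conj_conj, map_neg, map_ofNat]
      · have e1 : e w (algebraMap K F (b : K)) = conj (σ b) := congrArg (fun t : K →+* ℂ => t (b : K)) h1
        have e2 : (L7h65.RL2.cj (L w)).g₃ = conj (L w).g₃ := by
          unfold PeriodPair.g₃
          rw [L7h65.RL2.cj_G, map_mul, map_ofNat]
        rw [e2, k3, e1, map_mul, Complex.conj_conj, map_neg, map_ofNat]
  obtain ⟨L0, hg2, hg3⟩ := hL
  set P : ℝ := |(L0.ω₁ * conj L0.ω₂).im| with hPd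
  have hP0 : 0 < P := abs_pos.2 (im_ne L0)
  refine ⟨if ω = 0 then 1 else A * |ω.re| * √|(discr K : ℝ)| / P, ?_, fun F _ _ _ _ hab 𝔣 χ hR hn hdisc => ?_⟩
  · split_ifs with h0
    · exact one_pos
    · have h1 : ω.re ≠ 0 := fun h2 => h0 (Complex.ext h2 hωim)
      positivity
  obtain ⟨h1, q, hq⟩ := val_F h hf hΔ hloc hω1 hab hR hn
  refine ⟨h1, fun x Ω hx hO => ?_⟩
  obtain ⟨s, hs, hΩ⟩ := om_eq h L0 hg2 hg3 hO
  have hx' := hq x hx
  rw [hAω] at hx'
  have hdF : (0 : ℝ) < |(discr F : ℝ)| := by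
    have : (discr F : ℝ) ≠ 0 := by exact_mod_cast discr_ne_zero F
    positivity
  set N := Module.finrank K F with hN
  have hN0 : N ≠ 0 := Module.finrank_pos.ne'
  by_cases h0 : ω = 0
  · refine ⟨0, ?_⟩
    rw [hx', h0]
    simp [hN0]
  rw [if_neg h0]
  have hre : ω.re ≠ 0 := fun h2 => h0 (Complex.ext h2 hωim)
  -- the sign of `ω`
  obtain ⟨t, ht, hω3⟩ : ∃ t : ℝ, (t = 1 ∨ t = -1) ∧ ω.re = t * |ω.re| := by
    rcases abs_choice ω.re with h2 | h2
    · exact ⟨1, Or.inl rfl, by rw [h2]; ring⟩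
    · exact ⟨-1, Or.inr rfl, by rw [h2]; ring⟩
  -- `√D`
  set D : ℝ := ∏ᶠ ψ, (Ideal.absNorm (𝔣 ψ) : ℝ) with hD
  have hdK' : 0 < |(discr K : ℝ)| := by
    have : (discr K : ℝ) ≠ 0 := by exact_mod_cast discr_ne_zero K
    positivity
  have hD0 : 0 < D := by
    have h2 : 0 < |(discr K : ℝ)| ^ N * D := by rw [← hdisc]; exact hdF
    exact (mul_pos_iff_of_pos_left (pow_pos hdK' N)).1 h2
  have hsD : √D = √|(discr F : ℝ)| / √|(discr K : ℝ)| ^ N := by
    rw [hdisc, Real.sqrt_mul (by positivity), Real.sqrt_eq_rpow (|(discr K : ℝ)| ^ N),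
      ← Real.rpow_natCast, ← Real.rpow_mul hdK'.le, mul_comm (N : ℝ), Real.rpow_mul hdK'.le,
      ← Real.sqrt_eq_rpow, Real.rpow_natCast]
    field_simp
  have hsF : 0 < √|(discr F : ℝ)| := Real.sqrt_pos.2 hdF
  have hsF2 : √|(discr F : ℝ)| * √|(discr F : ℝ)| = |(discr F : ℝ)| := Real.mul_self_sqrt hdF.le
  -- the rational factor
  have key : ∃ q' : ℚ, (q' : ℝ) = q * s * t ^ N / |(discr F : ℝ)| := by
    have hs' : ∃ s' : ℚ, (s' : ℝ) = s := by
      rcases hs with rfl | rfl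
      · exact ⟨1, by norm_num⟩
      · exact ⟨-1, by norm_num⟩
    have ht' : ∃ t' : ℚ, (t' : ℝ) = t := by
      rcases ht with rfl | rfl
      · exact ⟨1, by norm_num⟩
      · exact ⟨-1, by norm_num⟩
    obtain ⟨s', hs'⟩ := hs'
    obtain ⟨t', ht'⟩ := ht'
    refine ⟨q * s' * t' ^ N / |(discr F : ℚ)|, ?_⟩
    push_cast
    rw [hs', ht']
  obtain ⟨q', hq'⟩ := key
  refine ⟨q', ?_⟩
  have hss : s * s = 1 := by rcases hs with rfl | rfl <;> norm_num
  have hreal : (q : ℝ) * (A * ω.re) ^ N / √D =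
      (q' : ℝ) * Ω * (A * |ω.re| * √|(discr K : ℝ)| / P) ^ N := by
    rw [hq', hΩ, hsD, ← hPd]
    have e1 : A * ω.re = A * (t * |ω.re|) := by rw [← hω3]
    rw [e1]
    have e2 := alg q s t A |ω.re| _ _ P N hss hP0.ne' hdK.ne' hsF.ne'
    rw [hsF2] at e2
    exact e2
  rw [hx']
  have := congrArg (fun r : ℝ => (r : ℂ)) hreal
  push_cast at this ⊢
  exact this

end Pool.Agent.L7h82.RL
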