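import Pool.Agent.L7h82.RL.Stm

/-!
Gauss sums of primitive characters of an arbitrary modulus.
-/

set_option autoImplicit false

namespace Pool.Agent.L7h82.RL

open Finset
open Pool.Agent.K4H55.BI Pool.Agent.K4H55.CX
open scoped ComplexConjugate

section
set_option linter.unusedSectionVars false
variable {O : Type} [CommRing O] {m : O} {χ : O → ℂ}

lemma ee_neg (δ z : ℂ) : ee δ (-z) = conj (ee δ z) := by
  unfold ee
  rw [← Complex.exp_conj]
  congr 1
  simp only [map_mul, map_add, map_ofNat, Complex.conj_ofReal, Complex.conj_I, neg_div, map_neg,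
    Complex.conj_conj]
  ring

lemma PC.br (h : PC m χ) : PC m (br χ) := by
  refine ⟨fun x y hxy => ?_, fun x y => ?_, ?_, fun x hx => ?_, fun x hx => ?_, fun p m' hp hm => ?_⟩
  · show conj (χ x) = conj (χ y)
    rw [h.prd x y hxy]
  · show conj (χ (x * y)) = conj (χ x) * conj (χ y)
    rw [h.mul, map_mul]
  · show conj (χ 1) = 1
    rw [h.one, map_one]
  · show conj (χ x) = 0
    rw [h.zero x hx, map_zero]
  · show conj (χ x) * conj (conj (χ x)) = 1
    rw [Complex.conj_conj, mul_comm]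
    exact h.nrm x hx
  · obtain ⟨x, h2, h3, h4⟩ := h.prim p m' hp hm
    refine ⟨x, h2, h3, fun h5 => h4 ?_⟩
    have h6 : conj (χ x) = 1 := h5
    have h7 := congrArg conj h6
    rwa [Complex.conj_conj, map_one] at h7

/-- the sums `∑ χ(x) e(αx/m)` -/
noncomputable def ga (D : K4H55.BI.Ord O) (m : O) (χ : O → ℂ) (α : O) : ℂ :=
  ∑ x ∈ rs D m, χ x * ee D.δ (D.ι (α * x) / D.ι m)

lemma ga_one (D : K4H55.BI.Ord O) : ga D m χ 1 = gm D m χ := by
  unfold ga gm
  refine Finset.sum_congr rfl fun x _ => ?_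
  rw [one_mul]

variable [IsDomain O]

lemma ga_coprime (D : K4H55.BI.Ord O) (hm : m ≠ 0) (hχ : PC m χ) {α : O} (h : IsCoprime α m) :
    ga D m χ α = conj (χ α) * gm D m χ := by
  have hιm : D.ι m ≠ 0 := fun h => hm (D.inj (by rw [h, map_zero]))
  have hprd := hχ.prd.mul (ee_prd D hιm 1)
  have h1 := CRS.sum_unit h (rs_CRS D hm) hprd
  have hsq := hχ.nrm α h
  rw [← ga_one]
  unfold ga
  rw [← h1, Finset.mul_sum]
  refine Finset.sum_congr rfl fun x _ => ?_
  rw [hχ.mul, one_mul]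
  linear_combination (-(χ x) * ee D.δ (D.ι (α * x) / D.ι m)) * hsq

lemma ga_zero (D : K4H55.BI.Ord O) (hm : m ≠ 0) (hχ : PC m χ) {α : O} (h : ¬ IsCoprime α m) :
    ga D m χ α = 0 := by
  classical
  have hιm : D.ι m ≠ 0 := fun h => hm (D.inj (by rw [h, map_zero]))
  have hpid := D.pid
  obtain ⟨p, hp, hpa, hpm⟩ : ∃ p, Prime p ∧ p ∣ α ∧ p ∣ m := by
    by_contra hcon
    push Not at hcon
    refine h (isCoprime_of_prime_dvd (fun h0 => hm h0.2) fun p hp h1 h2 => hcon p hp h1 h2)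
  obtain ⟨m', hmm⟩ := hpm
  obtain ⟨x0, h2, hco0, hne⟩ := hχ.prim p m' hp hmm
  have hprd := hχ.prd.mul (ee_prd D hιm α)
  have h3 := CRS.sum_unit hco0 (rs_CRS D hm) hprd
  have h4 : ∀ x ∈ rs D m, χ (x0 * x) * ee D.δ (D.ι (α * (x0 * x)) / D.ι m) =
      χ x0 * (χ x * ee D.δ (D.ι (α * x) / D.ι m)) := by
    intro x _
    obtain ⟨k, hk⟩ := hpa
    obtain ⟨l, hl⟩ := h2
    have h5 : D.ι (α * (x0 * x)) / D.ι m = D.ι (α * x) / D.ι m + D.ι (k * l * x) := by
      have h6 : α * (x0 * x) = α * x + m * (k * l * x) := by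
        rw [hmm]
        linear_combination (x * (x0 - 1)) * hk + (x * p * k) * hl
      rw [h6, map_add, map_mul D.ι m]
      field_simp
    rw [hχ.mul, h5, ee_add, D.dual1]
    ring
  rw [Finset.sum_congr rfl h4, ← Finset.mul_sum] at h3
  have h5 : (χ x0 - 1) * ga D m χ α = 0 := by
    have h6 : χ x0 * ga D m χ α = ga D m χ α := h3
    linear_combination h6
  rcases mul_eq_zero.1 h5 with h6 | h6
  · exact absurd (sub_eq_zero.1 h6) hne
  · exact h6

lemma ga_eq (D : K4H55.BI.Ord O) (hm : m ≠ 0) (hχ : PC m χ) (α : O) :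
    ga D m χ α = conj (χ α) * gm D m χ := by
  classical
  by_cases h : IsCoprime α m
  · exact ga_coprime D hm hχ h
  · rw [ga_zero D hm hχ h, hχ.zero α h, map_zero, zero_mul]

/-- the product of the Gauss sums of a character and its conjugate -/
lemma ga_mul (D : K4H55.BI.Ord O) (hm : m ≠ 0) (hχ : PC m χ) :
    gm D m χ * ∑ α ∈ rs D m, conj (χ α) * ee D.δ (-(D.ι α / D.ι m)) = (D.nm m : ℂ) := by
  classical
  have hιm : D.ι m ≠ 0 := fun h => hm (D.inj (by rw [h, map_zero]))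
  have hS := rs_CRS D hm
  have h1 : ∑ α ∈ rs D m, ga D m χ α * ee D.δ (-(D.ι α / D.ι m)) =
      gm D m χ * ∑ α ∈ rs D m, conj (χ α) * ee D.δ (-(D.ι α / D.ι m)) := by
    rw [Finset.mul_sum]
    refine Finset.sum_congr rfl fun α _ => ?_
    rw [ga_eq D hm hχ α]
    ring
  have h2 : ∑ α ∈ rs D m, ga D m χ α * ee D.δ (-(D.ι α / D.ι m)) =
      ∑ x ∈ rs D m, χ x * ∑ α ∈ rs D m, ee D.δ (D.ι (α * (x - 1)) / D.ι m) := by
    unfold ga
    simp only [Finset.sum_mul, Finset.mul_sum]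
    rw [Finset.sum_comm]
    refine Finset.sum_congr rfl fun x _ => Finset.sum_congr rfl fun α _ => ?_
    rw [mul_assoc, ← ee_add]
    congr 2
    rw [mul_sub, map_sub, mul_one]
    ring
  rw [← h1, h2]
  have h3 : ∀ x ∈ rs D m, χ x * ∑ α ∈ rs D m,
      ee D.δ (D.ι (α * (x - 1)) / D.ι m) = if m ∣ x - 1 then (D.nm m : ℂ) else 0 := by
    intro x _
    rw [orth D hm hS]
    by_cases hx : m ∣ x - 1
    · rw [if_pos hx, hχ.prd x 1 hx, hχ.one, one_mul]
    · rw [if_neg hx, mul_zero]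
  rw [Finset.sum_congr rfl h3]
  obtain ⟨x1, hx1, hd⟩ := hS.ex 1
  have hd' : m ∣ x1 - 1 := by
    have : x1 - 1 = -(1 - x1) := by ring
    rw [this, dvd_neg]
    exact hd
  have h4 : ∀ x ∈ rs D m, x ≠ x1 → (if m ∣ x - 1 then (D.nm m : ℂ) else 0) = 0 := by
    intro x hx hne
    refine if_neg fun h => hne (hS.un x hx x1 hx1 ?_)
    have : x - x1 = (x - 1) - (x1 - 1) := by ring
    rw [this]
    exact dvd_sub h hd'
  rw [Finset.sum_eq_single x1 h4 (fun h => absurd hx1 h), if_pos hd']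

lemma gm_ne (D : K4H55.BI.Ord O) (hm : m ≠ 0) (hχ : PC m χ) : gm D m χ ≠ 0 := by
  intro h0
  have h1 := ga_mul D hm hχ
  rw [h0, zero_mul] at h1
  have h5 := D.nm_pos hm
  have h6 : (D.nm m : ℂ) ≠ 0 := by exact_mod_cast h5.ne'
  exact h6 h1.symm

lemma gm_conj (D : K4H55.BI.Ord O) (hm : m ≠ 0) (hχ : PC m χ) (h1 : χ (-1) = 1) :
    ∑ α ∈ rs D m, conj (χ α) * ee D.δ (-(D.ι α / D.ι m)) = gm D m (br χ) := by
  have hιm : D.ι m ≠ 0 := fun h => hm (D.inj (by rw [h, map_zero]))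
  have hprd := (PC.br hχ).prd.mul (ee_prd D hιm 1)
  have hu : IsCoprime (-1 : O) m := ⟨-1, 0, by ring⟩
  have h2 := CRS.sum_unit hu (rs_CRS D hm) hprd
  rw [← ga_one]
  unfold ga
  rw [← h2]
  refine Finset.sum_congr rfl fun x _ => ?_
  have h3 : br χ (-1 * x) = br χ x := by
    show conj (χ (-1 * x)) = conj (χ x)
    rw [hχ.mul, h1, one_mul]
  rw [h3]
  have h4 : D.ι (1 * (-1 * x)) / D.ι m = -(D.ι x / D.ι m) := by
    rw [one_mul, neg_one_mul, map_neg, neg_div]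
  rw [h4]
  rfl

end

theorem s_GM : S_GM := by
  intro O _ _ D m χ hm hχ
  refine ⟨fun α => ga_eq D hm hχ α, gm_ne D hm hχ, fun h1 => ?_⟩
  have h2 := gm_conj D hm hχ h1
  have h3 : gm D m (br χ) = conj (gm D m χ) := by
    rw [← h2]
    unfold gm
    rw [map_sum]
    refine Finset.sum_congr rfl fun x _ => ?_
    rw [map_mul, ee_neg]
  refine ⟨h3, ?_⟩
  rw [← h2]
  exact ga_mul D hm hχ

end Pool.Agent.L7h82.RL
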