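import Pool.Agent.L7h15.BK.End1

/-!
# Project RL: the rationality of `L(1, E/F) / Ω(E/F)` over all abelian extensions `F` of an imaginary quadratic field:
statements of the independent parts

`K` is imaginary quadratic of class number one (`IQ K σ δ`), `E : y² = x³ + a x + b` over `K` with a Bianchi
newform (`BF σ δ n c`).  `F/K` is abelian, `𝒢` the group of the characters of `Gal(F/K)`; each `g ∈ 𝒢` corresponds to a
primitive character `χ g` of `K` of conductor `𝔣 g` (ARBITRARY exponents, the library has only squarefree conductors),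
prime to the level.  The central value of the twist by `χ` is
`kap / gm(conj χ) * ∑_{x mod 𝔣} conj χ(x) Φ(x/m) / nu`, `m` the generator of `𝔣` (parts TW, VAL); the product of the
`∑ conj χ(x) Φ(x/m) / ω` over all `g` is a rational integer (RAT); the product of the Gauss sums is `± √(∏ N 𝔣)`
(GM, GS), `|Disc F| = |Disc K|^[F:K] ∏ N 𝔣 g`, and the periods are the same at all places of `F` (PER).
-/

set_option autoImplicit false
set_option linter.unusedSectionVars false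

namespace Pool.Agent.L7h82.RL

open NumberField IsDedekindDomain Filter Topology
open Pool.Agent.K4H55.BI (rs Prd ee kap fv MF IQ BF ordK gen nu)
open Pool.Agent.K4H55.BK (Vals)
open Pool.Agent.K4H55.CX (br efx facF ord)
open Pool.Agent.W189.NF (aV eV)
open scoped ComplexConjugate

section ord

variable {O : Type} [CommRing O]

/-- a primitive character modulo `m` -/
structure PC (m : O) (χ : O → ℂ) : Prop where
  prd : Prd m χ
  mul : ∀ x y, χ (x * y) = χ x * χ y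
  one : χ 1 = 1
  zero : ∀ x, ¬ IsCoprime x m → χ x = 0
  nrm : ∀ x, IsCoprime x m → χ x * conj (χ x) = 1
  prim : ∀ p m', Prime p → m = p * m' → ∃ x, m' ∣ x - 1 ∧ IsCoprime x m ∧ χ x ≠ 1

/-- the Gauss sum modulo `m` -/
noncomputable def gm (D : K4H55.BI.Ord O) (m : O) (χ : O → ℂ) : ℂ :=
  ∑ x ∈ rs D m, χ x * ee D.δ (D.ι x / D.ι m)

/-- the sum of the values at the cusps `x/m` -/
noncomputable def sm (D : K4H55.BI.Ord O) (c : O → ℂ) (m : O) (χ : O → ℂ) : ℂ :=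
  ∑ x ∈ rs D m, conj (χ x) * fv D c (D.ι x / D.ι m)

end ord

/-- **GM** (`K4H55/CX/Chr.lean`, `gx_eq`, `gx_mul`, `gx_ne` with `md T` replaced by `m`, `∀ p ∈ T, ¬ p ∣ x` by
`IsCoprime x m`; if `x` is not prime to `m`, a prime `p` divides both (`D.pid`), and `prim` is used with `m = p m'` exactly as in
`gx_zero`).  The second statement: `conj (ee z) = ee (-z)` and `x ↦ -x` (`CRS.sum_unit` with the unit `-1`). -/
def S_GM : Prop := ∀ (O : Type) [CommRing O] [IsDomain O] (D : K4H55.BI.Ord O) (m : O) (χ : O → ℂ),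
  m ≠ 0 → PC m χ →
  (∀ α, ∑ x ∈ rs D m, χ x * ee D.δ (D.ι (α * x) / D.ι m) = conj (χ α) * gm D m χ) ∧ gm D m χ ≠ 0 ∧
  (χ (-1) = 1 → gm D m (br χ) = conj (gm D m χ) ∧ gm D m χ * gm D m (br χ) = (D.nm m : ℂ))

/-- **TW** (`K4H55/CX/Tw.lean`: `tw_th`, `invsum`, `twist_fe`, `twist` with `md T` replaced by `m`;
`continuation2`, `Tht_parts2` do not change). -/
def S_TW : Prop := S_GM → ∀ (O : Type) [CommRing O] [IsDomain O] (D : K4H55.BI.Ord O) (n : O) (c : O → ℂ) (C : ℝ)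
  (w : ℂ) (m : O) (χ : O → ℂ), MF D n c C w → m ≠ 0 → PC m χ → IsCoprime m n → χ (-1) = 1 →
  ∃ G : ℂ → ℂ, Differentiable ℂ G ∧ (∀ s : ℂ, 1 < s.re →
      Summable (fun x => ‖c x‖ * (D.nm x : ℝ) ^ (-s.re)) →
      G s = ∑' x, c x * χ x * (D.nm x : ℂ) ^ (-s)) ∧
      G 1 = kap D / gm D m (br χ) * sm D c m χ

section field

variable {K : Type} [Field K] [NumberField K]

/-- `χ` is a primitive character of `K` (of class number one) of conductor `𝔣`, as a function on `𝓞`, trivial on the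
units, and zero on the `x` which are not prime to `𝔣` -/
structure PK (𝔣 : Ideal (𝓞 K)) (χ : 𝓞 K → ℂ) : Prop where
  f0 : 𝔣 ≠ ⊥
  one : χ 1 = 1
  mul : ∀ x y, χ (x * y) = χ x * χ y
  zero : ∀ x, χ x = 0 ↔ ∃ v : HeightOneSpectrum (𝓞 K), 𝔣 ≤ v.asIdeal ∧ x ∈ v.asIdeal
  prd : ∀ x y, x - y ∈ 𝔣 → χ x = χ y
  unit : ∀ u, IsUnit u → χ u = 1
  prim : ∀ 𝔡 : Ideal (𝓞 K), 𝔣 < 𝔡 → ∃ x, x - 1 ∈ 𝔡 ∧ χ x ≠ 0 ∧ χ x ≠ 1

/-- the generator of an ideal -/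
noncomputable def gn [IsPrincipalIdealRing (𝓞 K)] (𝔣 : Ideal (𝓞 K)) : 𝓞 K := Submodule.IsPrincipal.generator 𝔣

end field

/-- **PCK**: `PK` gives `PC` (`nrm` because `(𝓞/𝔣)ˣ` is finite, so the values are roots of unity). -/
def S_PCK : Prop := ∀ (K : Type) [Field K] [NumberField K] [IsPrincipalIdealRing (𝓞 K)] (𝔣 : Ideal (𝓞 K))
  (χ : 𝓞 K → ℂ), PK 𝔣 χ → gn 𝔣 ≠ 0 ∧ PC (gn 𝔣) χ

/-- **VAL** (`K4H55/CX/Nv.lean`: `euler_tx`, `value_x`; `Hc` is used there only through `mul`, `one`,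
`‖χ x‖ ≤ 1`; `MF` comes from `hf.newf h`, `hN.mg`, `hMG.toMF`). -/
def S_VAL : Prop := S_PCK → S_GM → S_TW → ∀ (K : Type) [Field K] [NumberField K] [IsPrincipalIdealRing (𝓞 K)]
  (σ : K →+* ℂ) (δ : K) (n : 𝓞 K) (c : Ideal (𝓞 K) → ℂ) (h : IQ K σ δ), BF σ δ n c → ∀ (𝔣 : Ideal (𝓞 K))
  (χ : 𝓞 K → ℂ), PK 𝔣 χ → (∀ v : HeightOneSpectrum (𝓞 K), 𝔣 ≤ v.asIdeal → n ∉ v.asIdeal) →
  ∃ G : ℂ → ℂ, Differentiable ℂ G ∧ (∀ s : ℂ, 2 < s.re → HasProd (efx n c χ s) (G s)) ∧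
    G 1 = kap (ordK h) / gm (ordK h) (gn 𝔣) (br χ) * sm (ordK h) (fun x => c (Ideal.span {x})) (gn 𝔣) χ / nu (𝓞 K)

/-- **POW**: a group of primitive characters: the conductor of the `k`-th power, `k` prime to the order of the
group, is the same.  By `hmul` and induction `χ (g ^ j) x = χ g x ^ j` if `χ g x ≠ 0`; with `k k' = 1` modulo the order the
zeros of `χ g` and `χ (g ^ k)` are the same.  Let `𝔡 = 𝔣 g ⊔ 𝔣 (g ^ k)`; if `x = 1 + a + b`, `a ∈ 𝔣 g`, `b ∈ 𝔣 (g ^ k)` and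
`χ (g ^ k) x ≠ 0`, then `χ (g ^ k) x = χ (g ^ k) (1 + a) = χ g (1 + a) ^ k = 1`; so `𝔡 = 𝔣 (g ^ k)` by `prim`; in the same way
`𝔡 = 𝔣 g`. -/
def S_POW : Prop := ∀ (K : Type) [Field K] [NumberField K] (𝒢 : Type) [CommGroup 𝒢] [Finite 𝒢]
  (𝔣 : 𝒢 → Ideal (𝓞 K)) (χ : 𝒢 → 𝓞 K → ℂ), (∀ g, PK (𝔣 g) (χ g)) →
  (∀ g h x, χ g x ≠ 0 → χ h x ≠ 0 → χ (g * h) x = χ g x * χ h x) →
  (∀ x, χ 1 x = 1) ∧ (∀ g x, χ g x ≠ 0 → χ g x ^ Nat.card 𝒢 = 1) ∧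
  (∀ g (k : ℕ), k.Coprime (Nat.card 𝒢) → 𝔣 (g ^ k) = 𝔣 g ∧ ∀ x, χ (g ^ k) x = χ g x ^ k) ∧
  ∀ g, 𝔣 g⁻¹ = 𝔣 g ∧ χ g⁻¹ = br (χ g)

/-- **CYC** (pure algebra).  `ζ = exp(2πi/N)`; a product of values of polynomials which is stable under the
automorphisms `ζ ↦ ζ ^ k` is a rational integer.  Sketch: it is the value `P(ζ)` of the product `P` of the `T g`, `g ∈ A`, and
`P(ζ ^ k) = P(ζ)` for `k` prime to `N` (reindex by the bijection `g ↦ g ^ k` of `A`); so it is fixed by the Galois group of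
`ℚ(ζ)/ℚ` (`IsGalois.mem_bot_iff_fixed` or similar; every automorphism takes `ζ` to a power prime to `N`), and integral. -/
def S_CYC : Prop := ∀ (𝒢 : Type) [CommGroup 𝒢] [Finite 𝒢] (A : Finset 𝒢) (T : 𝒢 → Polynomial ℤ),
  (∀ g ∈ A, ∀ k : ℕ, k.Coprime (Nat.card 𝒢) → g ^ k ∈ A) →
  (∀ g ∈ A, ∀ k : ℕ, k.Coprime (Nat.card 𝒢) →
    Polynomial.aeval (Complex.exp (2 * Real.pi * Complex.I / (Nat.card 𝒢 : ℂ)) ^ k) (T g) =
      Polynomial.aeval (Complex.exp (2 * Real.pi * Complex.I / (Nat.card 𝒢 : ℂ))) (T (g ^ k))) →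
  ∃ r : ℤ, ∏ g ∈ A, Polynomial.aeval (Complex.exp (2 * Real.pi * Complex.I / (Nat.card 𝒢 : ℂ))) (T g) = (r : ℂ)

/-- **RAT**: the products of the twisted sums are rational integers (`S_CYC`; a value `χ g x ≠ 0` is a power of `ζ`; the
sums depend on `g` only through `𝔣 g` and `χ g`, and `S_POW`).  `P` is a polynomial in the values, for the factors at the bad places. -/
def S_RAT : Prop := S_CYC → S_POW → ∀ (K : Type) [Field K] [NumberField K] (𝒢 : Type) [CommGroup 𝒢] [Finite 𝒢]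
  (𝔣 : 𝒢 → Ideal (𝓞 K)) (χ : 𝒢 → 𝓞 K → ℂ), (∀ g, PK (𝔣 g) (χ g)) →
  (∀ g h x, χ g x ≠ 0 → χ h x ≠ 0 → χ (g * h) x = χ g x * χ h x) →
  ∀ A : Finset 𝒢, (∀ g ∈ A, ∀ k : ℕ, k.Coprime (Nat.card 𝒢) → g ^ k ∈ A) →
  (∀ (R : Ideal (𝓞 K) → Finset (𝓞 K)) (Z : Ideal (𝓞 K) → 𝓞 K → ℤ),
    ∃ r : ℤ, ∏ g ∈ A, ∑ x ∈ R (𝔣 g), conj (χ g x) * (Z (𝔣 g) x : ℂ) = (r : ℂ)) ∧
  ∀ (P : Polynomial ℤ) (x : 𝓞 K), ∃ r : ℤ, ∏ g ∈ A, Polynomial.aeval (χ g x) P = (r : ℂ)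

/-- **GS**: the product of the Gauss sums (`S_POW` with `g⁻¹`, `S_GM`, `S_PCK`; `χ (-1) = 1` by `unit`): it is real, as
`gm (br (χ g))` is the conjugate of `gm (χ g) = gm (br (χ g⁻¹))`, and its square is `∏ N (𝔣 g)`. -/
def S_GS : Prop := S_PCK → S_GM → S_POW → ∀ (K : Type) [Field K] [NumberField K] [IsPrincipalIdealRing (𝓞 K)]
  (σ : K →+* ℂ) (δ : K) (h : IQ K σ δ) (𝒢 : Type) [CommGroup 𝒢] [Fintype 𝒢]
  (𝔣 : 𝒢 → Ideal (𝓞 K)) (χ : 𝒢 → 𝓞 K → ℂ), (∀ g, PK (𝔣 g) (χ g)) →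
  (∀ g h x, χ g x ≠ 0 → χ h x ≠ 0 → χ (g * h) x = χ g x * χ h x) →
  ∃ e : ℝ, (e = 1 ∨ e = -1) ∧
    ∏ g, gm (ordK h) (gn (𝔣 g)) (br (χ g)) = ((e * √(∏ g, (Ideal.absNorm (𝔣 g) : ℝ)) : ℝ) : ℂ)

section ext

variable {K F : Type} [Field K] [NumberField K] [IsPrincipalIdealRing (𝓞 K)] [Field F] [NumberField F] [Algebra K F]

/-- `χ`, of conductor `𝔣`, corresponds to the character `ψ` of `Gal(F/K)` -/
structure RC (ψ : (F ≃ₐ[K] F) →* ℂˣ) (𝔣 : Ideal (𝓞 K)) (χ : 𝓞 K → ℂ) : Prop where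
  ch : PK 𝔣 χ
  ram : ∀ v : HeightOneSpectrum (𝓞 K), 𝔣 ≤ v.asIdeal → ∀ u : HeightOneSpectrum (𝓞 F),
    u.asIdeal.comap (algebraMap (𝓞 K) (𝓞 F)) = v.asIdeal →
    ∃ t : F ≃ₐ[K] F, (∀ x : 𝓞 F, t • x - x ∈ u.asIdeal) ∧ ψ t ≠ 1
  frob : ∀ v : HeightOneSpectrum (𝓞 K), ¬ 𝔣 ≤ v.asIdeal → ∀ u : HeightOneSpectrum (𝓞 F),
    u.asIdeal.comap (algebraMap (𝓞 K) (𝓞 F)) = v.asIdeal →
    ∀ t : F ≃ₐ[K] F, (∀ x : 𝓞 F, t • x - x ^ Ideal.absNorm v.asIdeal ∈ u.asIdeal) →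
      (ψ t : ℂ) = χ (gen v)

end ext

/-- **CLS** (`L7h15/BK/Cls.lean`: `Rc.mem_iff`, `Rc.zero_iff`, `cls`, with `v ∈ T ψ` replaced by
`𝔣 ψ ≤ v.asIdeal`; and `above_prod`, `CF.local`, `CF.prod` of `K4H55/CX/{AbL,Ab}.lean` (their `CF` uses
`ch` only for `triv`); the second statement is `Law` + `above_prod`). -/
def S_CLS : Prop := ∀ (K F : Type) [Field K] [NumberField K] [IsPrincipalIdealRing (𝓞 K)] [Field F] [NumberField F]
  [Algebra K F] [IsGalois K F] [Fintype ((F ≃ₐ[K] F) →* ℂˣ)], (∀ s t : F ≃ₐ[K] F, s * t = t * s) →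
  ∀ (𝔣 : ((F ≃ₐ[K] F) →* ℂˣ) → Ideal (𝓞 K)) (χ : ((F ≃ₐ[K] F) →* ℂˣ) → 𝓞 K → ℂ),
  (∀ ψ, RC ψ (𝔣 ψ) (χ ψ)) →
  (∀ g h x, χ g x ≠ 0 → χ h x ≠ 0 → χ (g * h) x = χ g x * χ h x) ∧
  (∀ (v : HeightOneSpectrum (𝓞 K)) (u : HeightOneSpectrum (𝓞 F)),
    u.asIdeal.comap (algebraMap (𝓞 K) (𝓞 F)) = v.asIdeal →
      Ideal.absNorm u.asIdeal = Ideal.absNorm v.asIdeal ^ ord χ (gen v)) ∧
  ∀ (n : 𝓞 K) (c : Ideal (𝓞 K) → ℂ) (v : HeightOneSpectrum (𝓞 K)) (s : ℂ),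
    ∏ᶠ u : {u : HeightOneSpectrum (𝓞 F) // u.asIdeal.comap (algebraMap (𝓞 K) (𝓞 F)) = v.asIdeal},
      facF n c v (Ideal.absNorm u.1.asIdeal) s = ∏ g, efx n c (χ g) s v

/-- `x` is the value at `1` of an analytic continuation of the `L`-series of `E` -/
def CentralValue {F : Type} [Field F] [NumberField F] (E : WeierstrassCurve F) (x : ℂ) : Prop :=
  ∃ (U : Set ℂ) (Φ : ℂ → ℂ), IsOpen U ∧ IsConnected U ∧ {s : ℂ | (2 : ℝ) < s.re} ⊆ U ∧ (1 : ℂ) ∈ U ∧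
    AnalyticOnNhd ℂ Φ U ∧ (∀ s : ℂ, (2 : ℝ) < s.re → Φ s = E.LSeries s) ∧ Φ 1 = x

open Classical in
/-- **LS** (`L7h15/OA/End.lean`, `end_l`, without the bound of Hasse: `W189/NF/LSer.lean`,
`LSeries_hasProd` is the Euler product for `Re s > 2`).  With `P`, `Q` as in `end_l` (the finitely many factors at
the places `v ∋ d = 2 (4a³ + 27b²)`), `LSeries * P = ∏ G * Q` for `Re s > 2`.  `P(1)` is rational and not zero: a factor is
`1 - a/q + e/q²` with `a = q + 1 - #points ≤ q`, `e = q`, or `|a| ≤ 1`, `e = 0` (`aLoc`, `eLoc`), and it is rational; `Q(1)` is rational by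
`S_RAT` (polynomial part, `c v` is an integer by `hloc`, the factor at `v` is `1 - a z/q + e z²/q²`, `z = χ g (gen v)`), and not zero: for
`z ≠ 0`, `|z| = 1`: `q² - a q z + e z² ≠ 0` by `hb_place` over `K` (places above two have `N ≤ 4` in a quadratic field, `nm_two`) and `HB.ne`.
The continuation: `U` = the set of analyticity of `G Q / P` (as in `end_l`); uniqueness: any continuation `Φ` on `U` satisfies
`Φ P = G Q` on `U` (identity theorem on the connected `U`). -/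
def S_LS : Prop := S_PCK → S_CYC → S_POW → S_RAT → S_CLS → ∀ (K F : Type) [Field K] [NumberField K]
  [IsPrincipalIdealRing (𝓞 K)]
  [Field F] [NumberField F] [Algebra K F] [IsGalois K F] [Fintype ((F ≃ₐ[K] F) →* ℂˣ)] (σ : K →+* ℂ) (δ : K)
  (n a b : 𝓞 K) (c : Ideal (𝓞 K) → ℂ), IQ K σ δ → 4 * a ^ 3 + 27 * b ^ 2 ≠ 0 →
  (∀ v : HeightOneSpectrum (𝓞 K), c v.asIdeal = (aV (L7h15.BK.cv (a : K) (b : K)) v : ℂ) ∧
    (eV (L7h15.BK.cv (a : K) (b : K)) v : ℂ) = if n ∈ v.asIdeal then 0 else (Ideal.absNorm v.asIdeal : ℂ)) →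
  (∀ s t : F ≃ₐ[K] F, s * t = t * s) →
  ∀ (𝔣 : ((F ≃ₐ[K] F) →* ℂˣ) → Ideal (𝓞 K)) (χ : ((F ≃ₐ[K] F) →* ℂˣ) → 𝓞 K → ℂ),
  (∀ ψ, RC ψ (𝔣 ψ) (χ ψ)) → ∀ G : ((F ≃ₐ[K] F) →* ℂˣ) → ℂ → ℂ, (∀ ψ, Differentiable ℂ (G ψ)) →
  (∀ ψ, ∀ s : ℂ, 2 < s.re → HasProd (efx n c (χ ψ) s) (G ψ s)) →
  ∃ r : ℚ, r ≠ 0 ∧ ∀ x : ℂ,
    CentralValue (L7h15.BK.cv (algebraMap K F (a : K)) (algebraMap K F (b : K))) x ↔ x = (r : ℂ) * ∏ ψ, G ψ 1

/-- **PER**: the lattice is determined by `g₂`, `g₃`.  Sketch: the equation `℘'² = 4 ℘³ - g₂ ℘ - g₃` (Mathlib: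
`PeriodPair.derivWeierstrassP_sq`) gives `℘'' = 6 ℘² - g₂/2`, and so all the coefficients of the expansion of `℘` at `0`
(`weierstrassPExcept`, `G n`) by recursion; two functions `℘` with the same `g₂`, `g₃` agree near `0`, so everywhere off the
lattices (identity theorem on the connected complement of a countable closed set), and the lattice is the set of the poles
(`not_continuousAt_weierstrassP`; `℘` is bounded near the points outside of the lattice).  Then the two bases of the lattice differ by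
a matrix in `GL₂(ℤ)`, of determinant `±1`.  For the conjugate: the pair `(conj ω₁, conj ω₂)` has the conjugate `g₂`, `g₃`. -/
def S_PER : Prop := ∀ L L' : PeriodPair, ((L'.g₂ = L.g₂ ∧ L'.g₃ = L.g₃) ∨
  (L'.g₂ = conj L.g₂ ∧ L'.g₃ = conj L.g₃)) →
  |(L'.ω₁ * conj L'.ω₂).im| = |(L.ω₁ * conj L.ω₂).im|

/-- **REAL**: the values at cusps are real.  All `c I` are real (induction on the number of prime factors of
`I`, by the Hecke relations `good`, `bad`, `zero`, `one`); `Fser` is real because the terms of `x` and `-x` are conjugate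
(`ee δ (-z) = conj (ee δ z)`), and so are the limits. -/
def S_REAL : Prop := ∀ (K : Type) [Field K] [NumberField K] [IsPrincipalIdealRing (𝓞 K)]
  (σ : K →+* ℂ) (δ : K) (n : 𝓞 K) (c : Ideal (𝓞 K) → ℂ), IQ K σ δ → BF σ δ n c →
  (∀ v : HeightOneSpectrum (𝓞 K), ∃ m : ℤ, c v.asIdeal = m) → ∀ z ∈ Vals σ δ n c, z.im = 0

end Pool.Agent.L7h82.RL
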