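import Pool.Agent.L7h82.RL.Stm

/-!
# Project RL, second theorem (Deligne's conjecture for `Res_{K/ℚ}(h¹(E)(1) ⊗ V)`): statements of the additional parts

`V` is a rational representation `ρ` of `G = Gal(F/K)`, `F/K` abelian.  `M_B^+ = H₁(E^σ(ℂ), ℚ) ⊗ V`,
`M_dR^+ = Lie(E) ⊗_K (V ⊗ F)^G`; the period `c^+` is `det (MB) / det (MD)`.
-/

set_option autoImplicit false
set_option linter.unusedSectionVars false

namespace Pool.Agent.L7h82.RL

open NumberField IsDedekindDomain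
open Pool.Agent.K4H55.BI (IQ ordK)
open Pool.Agent.K4H55.CX (br)
open scoped ComplexConjugate

/-- a family of elements of `𝒢`, stable (with multiplicities) under the `j`-th powers, `j` prime to the order of `𝒢` -/
def Stab {𝒢 : Type} [CommGroup 𝒢] {k : ℕ} (ψ : Fin k → 𝒢) : Prop :=
  ∀ (j : ℕ), j.Coprime (Nat.card 𝒢) → ∀ φ : 𝒢, Nat.card {i // ψ i = φ ^ j} = Nat.card {i // ψ i = φ}

/-- **STAB** (pure).  `ψ i` are the characters of the rational representation `ρ` of the finite abelian group `G`.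
Sketch: `∑ ψ i (g) ^ j = ∑ ψ i (g)` for `j` prime to `#G`: the left side is the image of the right side (the trace of `ρ g`, a
rational number `r`) under `ζ ↦ ζ ^ j`: `T(ζ) = r` for the polynomial `T = ∑ X ^ a(i)`, so the cyclotomic polynomial (minimal
polynomial of `ζ`) divides `T - r`.  By the independence of the characters (`linearIndependent_monoidHom`) the number of `i` with
`ψ i ^ j = φ ^ j` (that is, `ψ i = φ`: `j` is prime to the order of the dual group, which is that of `G`) is the number of `i` with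
`ψ i = φ ^ j`.  Second statement: constant coefficient of the characteristic polynomial. -/
def S_STAB : Prop := ∀ (G : Type) [CommGroup G] [Finite G] (k : ℕ) (ρ : G →* Matrix (Fin k) (Fin k) ℚ)
  (ψ : Fin k → (G →* ℂˣ)),
  (∀ g, ((ρ g).map (algebraMap ℚ ℂ)).charpoly = ∏ i, (Polynomial.X - Polynomial.C ((ψ i g : ℂˣ) : ℂ))) →
  Stab ψ ∧ ∀ g, ∏ i, ((ψ i g : ℂˣ) : ℂ) = ((ρ g).det : ℂ)

/-- **RATM**: `S_RAT` for stable families (level sets of the multiplicity). -/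
def S_RATM : Prop := S_CYC → S_POW → S_RAT → ∀ (K : Type) [Field K] [NumberField K] (𝒢 : Type) [CommGroup 𝒢]
  [Finite 𝒢] (𝔣 : 𝒢 → Ideal (𝓞 K)) (χ : 𝒢 → 𝓞 K → ℂ), (∀ g, PK (𝔣 g) (χ g)) →
  (∀ g h x, χ g x ≠ 0 → χ h x ≠ 0 → χ (g * h) x = χ g x * χ h x) →
  ∀ (k : ℕ) (ψ : Fin k → 𝒢), Stab ψ → ∀ (R : Ideal (𝓞 K) → Finset (𝓞 K)) (Z : Ideal (𝓞 K) → 𝓞 K → ℤ),
    ∃ r : ℤ, ∏ i, ∑ x ∈ R (𝔣 (ψ i)), conj (χ (ψ i) x) * (Z (𝔣 (ψ i)) x : ℂ) = (r : ℂ)

/-- **GSM**: `S_GS` for stable families (only the stability under `g ↦ g⁻¹` is used). -/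
def S_GSM : Prop := S_PCK → S_GM → S_POW → ∀ (K : Type) [Field K] [NumberField K] [IsPrincipalIdealRing (𝓞 K)]
  (σ : K →+* ℂ) (δ : K) (h : IQ K σ δ) (𝒢 : Type) [CommGroup 𝒢] [Finite 𝒢]
  (𝔣 : 𝒢 → Ideal (𝓞 K)) (χ : 𝒢 → 𝓞 K → ℂ), (∀ g, PK (𝔣 g) (χ g)) →
  (∀ g h x, χ g x ≠ 0 → χ h x ≠ 0 → χ (g * h) x = χ g x * χ h x) →
  ∀ (k : ℕ) (ψ : Fin k → 𝒢), Stab ψ → ∃ e : ℝ, (e = 1 ∨ e = -1) ∧
    ∏ i, gm (ordK h) (gn (𝔣 (ψ i))) (br (χ (ψ i))) =
      ((e * √(∏ i, (Ideal.absNorm (𝔣 (ψ i)) : ℝ)) : ℝ) : ℂ)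

section

variable {K F : Type} [Field K] [NumberField K] [Field F] [NumberField F] [Algebra K F]

/-- the de Rham space `(V ⊗ F)^Gal(F/K)` -/
def DR {k : ℕ} (ρ : (F ≃ₐ[K] F) →* Matrix (Fin k) (Fin k) ℚ) : Set (Fin k → F) :=
  {x | ∀ (g : F ≃ₐ[K] F) (i : Fin k), ∑ j, (ρ g i j : F) * g (x j) = x i}

/-- a rational basis of the de Rham space -/
def IsB {k : ℕ} (ρ : (F ≃ₐ[K] F) →* Matrix (Fin k) (Fin k) ℚ) (b : Fin k × Fin 2 → Fin k → F) : Prop :=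
  (∀ l, b l ∈ DR ρ) ∧ LinearIndependent ℚ b ∧ ∀ x ∈ DR ρ, x ∈ Submodule.span ℚ (Set.range b)

/-- the coordinates of the basis of the de Rham space in the two embeddings -/
noncomputable def MD {k : ℕ} (ν : F →+* ℂ) (b : Fin k × Fin 2 → Fin k → F) :
    Matrix (Fin k × Fin 2) (Fin k × Fin 2) ℂ :=
  Matrix.of fun p l => if p.2 = 0 then ν (b l p.1) else conj (ν (b l p.1))

end

/-- the coordinates of the basis of `M_B^+` -/
noncomputable def MB (k : ℕ) (w : Fin 2 → ℂ) : Matrix (Fin k × Fin 2) (Fin k × Fin 2) ℂ :=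
  Matrix.of fun p q => if p.1 = q.1 then (if p.2 = 0 then w q.2 else conj (w q.2)) else 0

/-- **MBD** (Kronecker product, `Matrix.det_kronecker`, or block matrices). -/
def S_MBD : Prop := ∀ (k : ℕ) (w : Fin 2 → ℂ), (MB k w).det = (w 0 * conj (w 1) - w 1 * conj (w 0)) ^ k

/-- **DR** (linear algebra and Galois descent).  The de Rham space is a `K`-subspace of `F^k`; it has dimension `2k` over
`ℚ`, so `k` over `K`; a `K`-basis of it is linearly independent over `F` (descent: take a shortest relation with one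
coefficient `1` and apply `x ↦ ρ(g) g(x)`); let `Y` be the matrix of a `K`-basis and `y = det Y`.  With an integral basis `θ` of `K` the
`θ_e Y_j` are a rational basis, for which the matrix `MD` is the product of `diag(ν Y, conj ν Y)` and `1 ⊗ (θ, conj θ)`; the
determinant of the last one is `± i √|discr K|` (`NumberField.discr`, its square is `discr K < 0`, or: `Algebra.discr_eq_det_embeddingsMatrixReindex_pow_two`);
the change to `b` is a rational matrix. -/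
def S_DR : Prop := ∀ (K F : Type) [Field K] [NumberField K] [Field F] [NumberField F] [Algebra K F] [IsGalois K F]
  (σ : K →+* ℂ) (δ : K), IQ K σ δ → ∀ ν : F →+* ℂ, (∀ x : K, ν (algebraMap K F x) = σ x) →
  ∀ (k : ℕ) (ρ : (F ≃ₐ[K] F) →* Matrix (Fin k) (Fin k) ℚ) (b : Fin k × Fin 2 → Fin k → F), IsB ρ b →
  ∃ (y : F) (q : ℚ), y ≠ 0 ∧ q ≠ 0 ∧ (∀ g : F ≃ₐ[K] F, ((ρ g).det : F) * g y = y) ∧
    (MD ν b).det = (q : ℂ) * (Complex.I * (√|(discr K : ℝ)| : ℝ)) ^ k * ((‖ν y‖ ^ 2 : ℝ) : ℂ)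

/-- the formula for conductors and discriminants, for the fields between `K` and `F` -/
def CDF (K F : Type) [Field K] [NumberField K] [Field F] [NumberField F] [Algebra K F]
    (𝔣 : ((F ≃ₐ[K] F) →* ℂˣ) → Ideal (𝓞 K)) : Prop :=
  ∀ L : IntermediateField K F, |(discr L : ℝ)| = |(discr K : ℝ)| ^ Module.finrank K L *
    ∏ᶠ ψ : {ψ : (F ≃ₐ[K] F) →* ℂˣ // ∀ g ∈ L.fixingSubgroup, ψ g = 1}, (Ideal.absNorm (𝔣 ψ.1) : ℝ)

/-- **QD**: a quadratic (or trivial) character `φ` of `Gal(F/K)` and `y ≠ 0` with `g y = φ(g) y`.  If `φ = 1`, then `y ∈ K`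
and `‖ν y‖² = N(y)`, `N (𝔣 1) = 1` (`RC`: a place containing `𝔣 1` would be ramified for `φ = 1`).  If `φ ≠ 1`: `β = y² ∈ K`,
`L` = the fixed field of `ker φ` `= K(y)`; the characters trivial on its fixing subgroup are `1`, `φ`, so `|discr L| = |discr K|² N (𝔣 φ)`; on the
other side, for a basis `1, θ` of `K/ℚ`, the discriminant of the basis `1, θ, y, θ y` of `L/ℚ` is
`16 N(β) Disc(1, θ)²`, and discriminants of bases differ by rational squares (`Algebra.discr_of_matrix_vecMul`,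
`NumberField.discr` with the integral basis); so `N (𝔣 φ)` is `N(β) = ‖ν y‖⁴` up to a rational square. -/
def S_QD : Prop := ∀ (K F : Type) [Field K] [NumberField K] [IsPrincipalIdealRing (𝓞 K)] [Field F] [NumberField F]
  [Algebra K F] [IsGalois K F] (σ : K →+* ℂ) (δ : K), IQ K σ δ → (∀ s t : F ≃ₐ[K] F, s * t = t * s) →
  ∀ ν : F →+* ℂ, (∀ x : K, ν (algebraMap K F x) = σ x) →
  ∀ (𝔣 : ((F ≃ₐ[K] F) →* ℂˣ) → Ideal (𝓞 K)) (χ : ((F ≃ₐ[K] F) →* ℂˣ) → 𝓞 K → ℂ),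
  (∀ ψ, RC ψ (𝔣 ψ) (χ ψ)) → CDF K F 𝔣 → ∀ φ : (F ≃ₐ[K] F) →* ℂˣ, ∀ y : F, y ≠ 0 →
  (∀ g : F ≃ₐ[K] F, (φ g = 1 ∧ g y = y) ∨ (φ g = -1 ∧ g y = -y)) →
  ∃ q : ℚ, q ≠ 0 ∧ ‖ν y‖ ^ 2 = (q : ℝ) * √(Ideal.absNorm (𝔣 φ) : ℝ)

/-- **CP**: the same for the determinant of a stable family.  Sketch: for every `ψ i` with `ψ i ^ 2 = 1` there is `y i ≠ 0` with
`g (y i) = ψ i (g) y i` (Lagrange resolvent, independence of characters); `y₀` their product, so
`‖ν y₀‖² = q ∏ √N(𝔣 (ψ i))` over these `i` by `S_QD`.  The other `i` come in pairs `φ, φ⁻¹` with the same multiplicity and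
the same conductor (`S_POW`; the number of the order of the dual group minus one gives the inverse), so the product of the norms of their
conductors is a square, and the product of their values is `1`.  So `g (y₀ y) = y₀ y` for all `g`, `y₀ y ∈ K`, and
`‖ν y₀‖⁴ = N(y₀²)` is rational. -/
def S_CP : Prop := S_QD → S_POW → S_CLS → ∀ (K F : Type) [Field K] [NumberField K] [IsPrincipalIdealRing (𝓞 K)]
  [Field F] [NumberField F]
  [Algebra K F] [IsGalois K F] (σ : K →+* ℂ) (δ : K), IQ K σ δ → (∀ s t : F ≃ₐ[K] F, s * t = t * s) →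
  ∀ ν : F →+* ℂ, (∀ x : K, ν (algebraMap K F x) = σ x) →
  ∀ (𝔣 : ((F ≃ₐ[K] F) →* ℂˣ) → Ideal (𝓞 K)) (χ : ((F ≃ₐ[K] F) →* ℂˣ) → 𝓞 K → ℂ),
  (∀ ψ, RC ψ (𝔣 ψ) (χ ψ)) → CDF K F 𝔣 → ∀ (k : ℕ) (ψ : Fin k → ((F ≃ₐ[K] F) →* ℂˣ)), Stab ψ →
  ∀ (d : (F ≃ₐ[K] F) → ℚ), (∀ g, ∏ i, ((ψ i g : ℂˣ) : ℂ) = (d g : ℂ)) →
  ∀ y : F, y ≠ 0 → (∀ g : F ≃ₐ[K] F, (d g : F) * g y = y) →
  ∃ q : ℚ, q ≠ 0 ∧ ‖ν y‖ ^ 2 = (q : ℝ) * √(∏ i, (Ideal.absNorm (𝔣 (ψ i)) : ℝ))

end Pool.Agent.L7h82.RL
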